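import Pool.Agent.DTW.Defs

/-!
Wirtinger calculus in `ℂ^(2n)`.
-/

open scoped ContDiff ComplexConjugate Topology
open Complex

namespace Pool.Agent.DTW

variable {n : ℕ}

/-- `∂f/∂z_k` -/
noncomputable def pk (k : Ix n) (f : E n → ℂ) (z : E n) : ℂ := d10 f z (e k)

/-- `∂f/∂z̄_k` -/
noncomputable def pb (k : Ix n) (f : E n → ℂ) (z : E n) : ℂ := d01 f z (e k)

theorem d10_add_vec (f : E n → ℂ) (z a b : E n) : d10 f z (a + b) = d10 f z a + d10 f z b := by
  unfold d10
  rw [smul_add, map_add, map_add]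
  ring

theorem d01_add_vec (f : E n → ℂ) (z a b : E n) : d01 f z (a + b) = d01 f z a + d01 f z b := by
  unfold d01
  rw [smul_add, map_add, map_add]
  ring

theorem d10_smul_vec (f : E n → ℂ) (z a : E n) (c : ℂ) : d10 f z (c • a) = c * d10 f z a := by
  unfold d10
  have h1 : c • a = c.re • a + c.im • (I • a) := by
    rw [← Complex.coe_smul c.re a, ← Complex.coe_smul c.im (I • a), smul_smul, ← add_smul,
      Complex.re_add_im]
  have h2 : I • (c • a) = c.re • (I • a) - c.im • a := by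
    rw [h1, smul_add, smul_comm I c.re a, smul_comm I c.im (I • a), smul_smul I I a, I_mul_I,
      neg_one_smul, smul_neg, sub_eq_add_neg]
  have hr : ∀ (r : ℝ) (v : E n), fderiv ℝ f z (r • v) = (r : ℂ) * fderiv ℝ f z v := by
    intro r v
    rw [(fderiv ℝ f z).map_smul, Complex.real_smul]
  rw [h2, h1, map_add, map_sub, hr, hr, hr, hr]
  have hc : c = (c.re : ℂ) + c.im * I := (Complex.re_add_im c).symm
  have hI : (I : ℂ) * I = -1 := I_mul_I
  have hgoal : ∀ (x y A B : ℂ), (x * A + y * B - I * (x * B - y * A)) / 2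
      = (x + y * I) * ((A - I * B) / 2) := by
    intro x y A B
    linear_combination (y * B / 2) * hI
  rw [hgoal, ← hc]

theorem d01_smul_vec (f : E n → ℂ) (z a : E n) (c : ℂ) :
    d01 f z (c • a) = conj c * d01 f z a := by
  unfold d01
  have h1 : c • a = c.re • a + c.im • (I • a) := by
    rw [← Complex.coe_smul c.re a, ← Complex.coe_smul c.im (I • a), smul_smul, ← add_smul,
      Complex.re_add_im]
  have h2 : I • (c • a) = c.re • (I • a) - c.im • a := by
    rw [h1, smul_add, smul_comm I c.re a, smul_comm I c.im (I • a), smul_smul I I a, I_mul_I,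
      neg_one_smul, smul_neg, sub_eq_add_neg]
  have hr : ∀ (r : ℝ) (v : E n), fderiv ℝ f z (r • v) = (r : ℂ) * fderiv ℝ f z v := by
    intro r v
    rw [(fderiv ℝ f z).map_smul, Complex.real_smul]
  rw [h2, h1, map_add, map_sub, hr, hr, hr, hr]
  have hc : conj c = (c.re : ℂ) - c.im * I := by
    apply Complex.ext <;> simp
  rw [hc]
  have hI : (I : ℂ) * I = -1 := I_mul_I
  linear_combination ((c.im : ℂ) * (fderiv ℝ f z (I • a)) / 2) * hI

theorem d10_zero_vec (f : E n → ℂ) (z : E n) : d10 f z 0 = 0 := by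
  unfold d10; simp

theorem d01_zero_vec (f : E n → ℂ) (z : E n) : d01 f z 0 = 0 := by
  unfold d01; simp

theorem vec_eq_sum (a : E n) : a = ∑ k, a k • (e k : E n) := by
  funext j
  simp [e, Finset.sum_apply, Pi.single_apply]

theorem d10_eq_sum (f : E n → ℂ) (z a : E n) : d10 f z a = ∑ k, a k * pk k f z := by
  let L : E n →+ ℂ :=
    { toFun := fun v => d10 f z v, map_zero' := d10_zero_vec f z, map_add' := d10_add_vec f z }
  have h : L a = ∑ k, L (a k • (e k : E n)) := by
    rw [← map_sum, ← vec_eq_sum a]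
  have h2 : ∀ v, L v = d10 f z v := fun v => rfl
  rw [h2] at h
  rw [h]
  refine Finset.sum_congr rfl fun k _ => ?_
  rw [h2, d10_smul_vec]
  rfl

theorem d01_eq_sum (f : E n → ℂ) (z b : E n) : d01 f z b = ∑ k, conj (b k) * pb k f z := by
  let L : E n →+ ℂ :=
    { toFun := fun v => d01 f z v, map_zero' := d01_zero_vec f z, map_add' := d01_add_vec f z }
  have h : L b = ∑ k, L (b k • (e k : E n)) := by
    rw [← map_sum, ← vec_eq_sum b]
  have h2 : ∀ v, L v = d01 f z v := fun v => rfl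
  rw [h2] at h
  rw [h]
  refine Finset.sum_congr rfl fun k _ => ?_
  rw [h2, d01_smul_vec]
  rfl

theorem d10_congr {f g : E n → ℂ} {z a : E n} (h : f =ᶠ[𝓝 z] g) : d10 f z a = d10 g z a := by
  unfold d10; rw [h.fderiv_eq]

theorem d01_congr {f g : E n → ℂ} {z a : E n} (h : f =ᶠ[𝓝 z] g) : d01 f z a = d01 g z a := by
  unfold d01; rw [h.fderiv_eq]

theorem pk_congr {f g : E n → ℂ} {z : E n} {k : Ix n} (h : f =ᶠ[𝓝 z] g) :
    pk k f z = pk k g z := d10_congr h

theorem pb_congr {f g : E n → ℂ} {z : E n} {k : Ix n} (h : f =ᶠ[𝓝 z] g) :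
    pb k f z = pb k g z := d01_congr h

section rules

variable {f g : E n → ℂ} {z a : E n}

theorem d10_const (c : ℂ) : d10 (fun _ : E n => c) z a = 0 := by
  unfold d10; simp

theorem d01_const (c : ℂ) : d01 (fun _ : E n => c) z a = 0 := by
  unfold d01; simp

theorem d10_add (hf : DifferentiableAt ℝ f z) (hg : DifferentiableAt ℝ g z) :
    d10 (fun y => f y + g y) z a = d10 f z a + d10 g z a := by
  unfold d10
  rw [fderiv_fun_add hf hg]
  simp only [add_apply]
  ring

theorem d01_add (hf : DifferentiableAt ℝ f z) (hg : DifferentiableAt ℝ g z) :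
    d01 (fun y => f y + g y) z a = d01 f z a + d01 g z a := by
  unfold d01
  rw [fderiv_fun_add hf hg]
  simp only [add_apply]
  ring

theorem d10_mul (hf : DifferentiableAt ℝ f z) (hg : DifferentiableAt ℝ g z) :
    d10 (fun y => f y * g y) z a = d10 f z a * g z + f z * d10 g z a := by
  unfold d10
  rw [fderiv_fun_mul hf hg]
  simp only [add_apply, smul_apply, smul_eq_mul]
  ring

theorem d01_mul (hf : DifferentiableAt ℝ f z) (hg : DifferentiableAt ℝ g z) :
    d01 (fun y => f y * g y) z a = d01 f z a * g z + f z * d01 g z a := by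
  unfold d01
  rw [fderiv_fun_mul hf hg]
  simp only [add_apply, smul_apply, smul_eq_mul]
  ring

theorem d10_const_mul (hg : DifferentiableAt ℝ g z) (c : ℂ) :
    d10 (fun y => c * g y) z a = c * d10 g z a := by
  rw [d10_mul (differentiableAt_const c) hg, d10_const]; ring

theorem d01_const_mul (hg : DifferentiableAt ℝ g z) (c : ℂ) :
    d01 (fun y => c * g y) z a = c * d01 g z a := by
  rw [d01_mul (differentiableAt_const c) hg, d01_const]; ring

theorem d10_sum {κ : Type*} (s : Finset κ) (F : κ → E n → ℂ)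
    (h : ∀ i ∈ s, DifferentiableAt ℝ (F i) z) :
    d10 (fun y => ∑ i ∈ s, F i y) z a = ∑ i ∈ s, d10 (F i) z a := by
  unfold d10
  rw [fderiv_fun_sum h]
  simp only [sum_apply]
  rw [Finset.mul_sum, ← Finset.sum_sub_distrib, Finset.sum_div]

theorem d01_sum {κ : Type*} (s : Finset κ) (F : κ → E n → ℂ)
    (h : ∀ i ∈ s, DifferentiableAt ℝ (F i) z) :
    d01 (fun y => ∑ i ∈ s, F i y) z a = ∑ i ∈ s, d01 (F i) z a := by
  unfold d01
  rw [fderiv_fun_sum h]
  simp only [sum_apply]
  rw [Finset.mul_sum, ← Finset.sum_add_distrib, Finset.sum_div]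

theorem fderiv_conj (hf : DifferentiableAt ℝ f z) (a : E n) :
    fderiv ℝ (fun y => conj (f y)) z a = conj (fderiv ℝ f z a) := by
  have h : HasFDerivAt (fun y => Complex.conjCLE (f y))
      ((Complex.conjCLE : ℂ →L[ℝ] ℂ).comp (fderiv ℝ f z)) z :=
    (Complex.conjCLE : ℂ →L[ℝ] ℂ).hasFDerivAt.comp z hf.hasFDerivAt
  have h2 : (fun y => Complex.conjCLE (f y)) = fun y => conj (f y) := by
    funext y; simp
  rw [h2] at h
  rw [h.fderiv]
  simp

theorem d10_conj (hf : DifferentiableAt ℝ f z) :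
    d10 (fun y => conj (f y)) z a = conj (d01 f z a) := by
  unfold d10 d01
  rw [fderiv_conj hf, fderiv_conj hf]
  simp only [map_div₀, map_add, map_mul, Complex.conj_I, Complex.conj_ofNat]
  ring

theorem d01_conj (hf : DifferentiableAt ℝ f z) :
    d01 (fun y => conj (f y)) z a = conj (d10 f z a) := by
  unfold d10 d01
  rw [fderiv_conj hf, fderiv_conj hf]
  simp only [map_div₀, map_sub, map_mul, Complex.conj_I, Complex.conj_ofNat]
  ring

theorem fderiv_cexp' (hf : DifferentiableAt ℝ f z) (a : E n) :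
    fderiv ℝ (fun y => cexp (f y)) z a = cexp (f z) * fderiv ℝ f z a := by
  have h : HasFDerivAt (fun y => cexp (f y)) (cexp (f z) • fderiv ℝ f z) z :=
    hf.hasFDerivAt.cexp
  rw [h.fderiv]
  simp

theorem d10_exp (hf : DifferentiableAt ℝ f z) :
    d10 (fun y => cexp (f y)) z a = cexp (f z) * d10 f z a := by
  unfold d10
  rw [fderiv_cexp' hf, fderiv_cexp' hf]
  ring

theorem d01_exp (hf : DifferentiableAt ℝ f z) :
    d01 (fun y => cexp (f y)) z a = cexp (f z) * d01 f z a := by
  unfold d01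
  rw [fderiv_cexp' hf, fderiv_cexp' hf]
  ring

end rules

section smooth

variable {f : E n → ℂ} {U : Set (E n)} {z : E n}

theorem contDiffOn_d10 (hU : IsOpen U) (hf : ContDiffOn ℝ ∞ f U) (a : E n) :
    ContDiffOn ℝ ∞ (fun z => d10 f z a) U := by
  have h : ContDiffOn ℝ ∞ (fderiv ℝ f) U := hf.fderiv_of_isOpen hU (by simp)
  unfold d10
  have h1 : ContDiffOn ℝ ∞ (fun z => fderiv ℝ f z a) U := h.clm_apply contDiffOn_const
  have h2 : ContDiffOn ℝ ∞ (fun z => fderiv ℝ f z (I • a)) U := h.clm_apply contDiffOn_const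
  exact (h1.sub (contDiffOn_const.mul h2)).div_const 2

theorem contDiffOn_d01 (hU : IsOpen U) (hf : ContDiffOn ℝ ∞ f U) (a : E n) :
    ContDiffOn ℝ ∞ (fun z => d01 f z a) U := by
  have h : ContDiffOn ℝ ∞ (fderiv ℝ f) U := hf.fderiv_of_isOpen hU (by simp)
  unfold d01
  have h1 : ContDiffOn ℝ ∞ (fun z => fderiv ℝ f z a) U := h.clm_apply contDiffOn_const
  have h2 : ContDiffOn ℝ ∞ (fun z => fderiv ℝ f z (I • a)) U := h.clm_apply contDiffOn_const
  exact (h1.add (contDiffOn_const.mul h2)).div_const 2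

theorem contDiffOn_pk (hU : IsOpen U) (hf : ContDiffOn ℝ ∞ f U) (k : Ix n) :
    ContDiffOn ℝ ∞ (pk k f) U := contDiffOn_d10 hU hf (e k)

theorem contDiffOn_pb (hU : IsOpen U) (hf : ContDiffOn ℝ ∞ f U) (k : Ix n) :
    ContDiffOn ℝ ∞ (pb k f) U := contDiffOn_d01 hU hf (e k)

theorem diffAt_of (hU : IsOpen U) (hf : ContDiffOn ℝ ∞ f U) (hz : z ∈ U) :
    DifferentiableAt ℝ f z :=
  (hf.contDiffAt (hU.mem_nhds hz)).differentiableAt (by simp)

end smooth

end Pool.Agent.DTW
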