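import Pool.Agent.DTW.Base

/-!
Commutation of Wirtinger derivatives, holomorphic functions, coordinates of the Levi form.
-/

open scoped ContDiff ComplexConjugate Topology
open Complex

namespace Pool.Agent.DTW

variable {n : ℕ}

theorem fderiv_d01 {f : E n → ℂ} {z : E n} (hf : ContDiffAt ℝ ∞ f z) (b v : E n) :
    fderiv ℝ (fun y => d01 f y b) z v =
      (fderiv ℝ (fderiv ℝ f) z v b + I * fderiv ℝ (fderiv ℝ f) z v (I • b)) / 2 := by
  have h2 : DifferentiableAt ℝ (fderiv ℝ f) z :=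
    (hf.fderiv_right (m := ∞) (by simp)).differentiableAt (by simp)
  have h3 : ∀ c : E n, HasFDerivAt (fun y => fderiv ℝ f y c)
      ((fderiv ℝ (fderiv ℝ f) z).flip c) z := by
    intro c
    have := h2.hasFDerivAt.clm_apply (hasFDerivAt_const c z)
    simpa using this
  have h4 := ((h3 b).add ((h3 (I • b)).const_mul I)).mul_const ((2 : ℂ)⁻¹)
  have h5 : (fun y => d01 f y b) = fun y => (fderiv ℝ f y b + I * fderiv ℝ f y (I • b)) * (2:ℂ)⁻¹ := by
    funext y; unfold d01; rw [div_eq_mul_inv]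
  rw [h5]
  erw [h4.fderiv]
  simp [smul_eq_mul]
  ring

theorem fderiv_d10 {f : E n → ℂ} {z : E n} (hf : ContDiffAt ℝ ∞ f z) (b v : E n) :
    fderiv ℝ (fun y => d10 f y b) z v =
      (fderiv ℝ (fderiv ℝ f) z v b - I * fderiv ℝ (fderiv ℝ f) z v (I • b)) / 2 := by
  have h2 : DifferentiableAt ℝ (fderiv ℝ f) z :=
    (hf.fderiv_right (m := ∞) (by simp)).differentiableAt (by simp)
  have h3 : ∀ c : E n, HasFDerivAt (fun y => fderiv ℝ f y c)
      ((fderiv ℝ (fderiv ℝ f) z).flip c) z := by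
    intro c
    have := h2.hasFDerivAt.clm_apply (hasFDerivAt_const c z)
    simpa using this
  have h4 := ((h3 b).sub ((h3 (I • b)).const_mul I)).mul_const ((2 : ℂ)⁻¹)
  have h5 : (fun y => d10 f y b) = fun y => (fderiv ℝ f y b - I * fderiv ℝ f y (I • b)) * (2:ℂ)⁻¹ := by
    funext y; unfold d10; rw [div_eq_mul_inv]
  rw [h5]
  erw [h4.fderiv]
  simp [smul_eq_mul]
  ring

theorem symm2 {f : E n → ℂ} {z : E n} (hf : ContDiffAt ℝ ∞ f z) (v w : E n) :
    fderiv ℝ (fderiv ℝ f) z v w = fderiv ℝ (fderiv ℝ f) z w v := by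
  have h2 : (minSmoothness ℝ 2) ≤ (∞ : WithTop ℕ∞) := by
    rw [minSmoothness_of_isRCLikeNormedField]
    exact WithTop.coe_le_coe.2 le_top
  have h : IsSymmSndFDerivAt ℝ f z := hf.isSymmSndFDerivAt h2
  exact h v w

theorem d10_d01_comm {f : E n → ℂ} {z : E n} (hf : ContDiffAt ℝ ∞ f z) (a b : E n) :
    d10 (fun y => d01 f y b) z a = d01 (fun y => d10 f y a) z b := by
  rw [d10, d01, fderiv_d01 hf, fderiv_d01 hf, fderiv_d10 hf, fderiv_d10 hf,
    symm2 hf a b, symm2 hf a (I • b), symm2 hf (I • a) b, symm2 hf (I • a) (I • b)]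
  ring

theorem d10_d10_comm {f : E n → ℂ} {z : E n} (hf : ContDiffAt ℝ ∞ f z) (a b : E n) :
    d10 (fun y => d10 f y b) z a = d10 (fun y => d10 f y a) z b := by
  rw [d10, d10, fderiv_d10 hf, fderiv_d10 hf, fderiv_d10 hf, fderiv_d10 hf,
    symm2 hf a b, symm2 hf a (I • b), symm2 hf (I • a) b, symm2 hf (I • a) (I • b)]
  ring

theorem d01_d01_comm {f : E n → ℂ} {z : E n} (hf : ContDiffAt ℝ ∞ f z) (a b : E n) :
    d01 (fun y => d01 f y b) z a = d01 (fun y => d01 f y a) z b := by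
  rw [d01, d01, fderiv_d01 hf, fderiv_d01 hf, fderiv_d01 hf, fderiv_d01 hf,
    symm2 hf a b, symm2 hf a (I • b), symm2 hf (I • a) b, symm2 hf (I • a) (I • b)]
  ring

theorem pk_pb_comm {f : E n → ℂ} {z : E n} (hf : ContDiffAt ℝ ∞ f z) (k l : Ix n) :
    pk k (pb l f) z = pb l (pk k f) z := d10_d01_comm hf (e k) (e l)

theorem pk_pk_comm {f : E n → ℂ} {z : E n} (hf : ContDiffAt ℝ ∞ f z) (k l : Ix n) :
    pk k (pk l f) z = pk l (pk k f) z := d10_d10_comm hf (e k) (e l)

theorem pb_pb_comm {f : E n → ℂ} {z : E n} (hf : ContDiffAt ℝ ∞ f z) (k l : Ix n) :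
    pb k (pb l f) z = pb l (pb k f) z := d01_d01_comm hf (e k) (e l)

/-- a complex differentiable function has vanishing `∂̄` -/
theorem d01_of_diff {f : E n → ℂ} {z : E n} (hf : DifferentiableAt ℂ f z) (b : E n) :
    d01 f z b = 0 := by
  have h : HasFDerivAt f ((fderiv ℂ f z).restrictScalars ℝ) z := hf.hasFDerivAt.restrictScalars ℝ
  unfold d01
  rw [h.fderiv]
  simp only [ContinuousLinearMap.coe_restrictScalars', map_smul, smul_eq_mul]
  have hI : (I : ℂ) * I = -1 := I_mul_I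
  linear_combination (fderiv ℂ f z b / 2) * hI

theorem d10_of_diff {f : E n → ℂ} {z : E n} (hf : DifferentiableAt ℂ f z) (a : E n) :
    d10 f z a = fderiv ℂ f z a := by
  have h : HasFDerivAt f ((fderiv ℂ f z).restrictScalars ℝ) z := hf.hasFDerivAt.restrictScalars ℝ
  unfold d10
  rw [h.fderiv]
  simp only [ContinuousLinearMap.coe_restrictScalars', map_smul, smul_eq_mul]
  have hI : (I : ℂ) * I = -1 := I_mul_I
  linear_combination (-(fderiv ℂ f z a) / 2) * hI

/-- the Cauchy-Riemann equations -/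
theorem diff_of_pb {f : E n → ℂ} {z : E n} (hf : DifferentiableAt ℝ f z)
    (h : ∀ k, pb k f z = 0) : DifferentiableAt ℂ f z := by
  have h0 : ∀ b, d01 f z b = 0 := by
    intro b
    rw [d01_eq_sum]
    simp [h]
  have h1 : ∀ b, fderiv ℝ f z (I • b) = I * fderiv ℝ f z b := by
    intro b
    have h2 := h0 b
    unfold d01 at h2
    have hI : (I : ℂ) * I = -1 := I_mul_I
    linear_combination (-2 * I) * h2 + (fderiv ℝ f z (I • b)) * hI
  have h2 : ∀ (c : ℂ) (b : E n), fderiv ℝ f z (c • b) = c • fderiv ℝ f z b := by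
    intro c b
    have h3 : c • b = c.re • b + c.im • (I • b) := by
      rw [← Complex.coe_smul c.re b, ← Complex.coe_smul c.im (I • b), smul_smul, ← add_smul,
        Complex.re_add_im]
    rw [h3, map_add, (fderiv ℝ f z).map_smul, (fderiv ℝ f z).map_smul, h1, Complex.real_smul,
      Complex.real_smul, smul_eq_mul]
    conv_rhs => rw [← Complex.re_add_im c]
    ring
  rw [differentiableAt_iff_restrictScalars ℝ hf]
  refine ⟨⟨⟨⟨fderiv ℝ f z, fun a b => map_add _ a b⟩, fun c b => h2 c b⟩, (fderiv ℝ f z).cont⟩, ?_⟩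
  ext v
  rfl

/-- Levi matrix of a real function -/
noncomputable def LM (w : E n → ℝ) (z : E n) (k l : Ix n) : ℂ := levi w z (e k) (e l)

/-- complexification of a real function -/
def cx (w : E n → ℝ) (z : E n) : ℂ := (w z : ℂ)

theorem LM_eq (w : E n → ℝ) (z : E n) (k l : Ix n) : LM w z k l = pk k (pb l (cx w)) z := rfl

theorem contDiffOn_cx {w : E n → ℝ} {U : Set (E n)} (hw : ContDiffOn ℝ ∞ w U) :
    ContDiffOn ℝ ∞ (cx w) U := Complex.ofRealCLM.contDiff.comp_contDiffOn hw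

theorem contDiffAt_cx {w : E n → ℝ} {z : E n} (hw : ContDiffAt ℝ ∞ w z) :
    ContDiffAt ℝ ∞ (cx w) z := Complex.ofRealCLM.contDiff.contDiffAt.comp z hw

theorem diff_pb_cx {w : E n → ℝ} {z : E n} (hw : ContDiffAt ℝ ∞ w z) (l : Ix n) :
    DifferentiableAt ℝ (pb l (cx w)) z := by
  have hs : ContDiffAt ℝ ∞ (cx w) z := contDiffAt_cx hw
  have h2 : ContDiffAt ℝ ∞ (fderiv ℝ (cx w)) z := hs.fderiv_right (m := ∞) (by simp)
  have h3 : ∀ c : E n, ContDiffAt ℝ ∞ (fun y => fderiv ℝ (cx w) y c) z := fun c =>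
    h2.clm_apply contDiffAt_const
  exact (((h3 (e l)).add (contDiffAt_const.mul (h3 (I • e l)))).div_const 2).differentiableAt
    (by simp)

theorem levi_eq_sum {w : E n → ℝ} {z : E n} (hw : ContDiffAt ℝ ∞ w z) (a b : E n) :
    levi w z a b = ∑ k, ∑ l, a k * conj (b l) * LM w z k l := by
  have hd := diff_pb_cx hw
  have h1 : (fun y => d01 (fun x => (w x : ℂ)) y b) = fun y => ∑ l, conj (b l) * pb l (cx w) y := by
    funext y
    exact d01_eq_sum _ _ _
  unfold levi
  have h2 := d10_sum (z := z) (a := a) Finset.univ (fun l y => conj (b l) * pb l (cx w) y)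
    (fun l _ => (differentiableAt_const _).mul (hd l))
  rw [h1, h2, Finset.sum_comm]
  refine Finset.sum_congr rfl fun l _ => ?_
  rw [d10_const_mul (hd l), d10_eq_sum, Finset.mul_sum]
  refine Finset.sum_congr rfl fun k _ => ?_
  rw [LM_eq]
  ring

theorem conj_cx (w : E n → ℝ) (y : E n) : conj (cx w y) = cx w y := Complex.conj_ofReal _

theorem pk_cx {w : E n → ℝ} {z : E n} (hw : DifferentiableAt ℝ (cx w) z) (k : Ix n) :
    pk k (cx w) z = conj (pb k (cx w) z) := by
  have h := d10_conj (a := e k) hw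
  have h2 : (fun y => conj (cx w y)) = cx w := funext fun y => conj_cx w y
  rw [h2] at h
  exact h

theorem LM_conj {w : E n → ℝ} {U : Set (E n)} (hU : IsOpen U) (hw : ContDiffOn ℝ ∞ w U)
    {z : E n} (hz : z ∈ U) (k l : Ix n) :
    conj (LM w z k l) = LM w z l k := by
  have hcw := contDiffOn_cx hw
  have h1 : DifferentiableAt ℝ (pb l (cx w)) z := diffAt_of hU (contDiffOn_pb hU hcw l) hz
  rw [LM_eq, LM_eq]
  have h2 : conj (pk k (pb l (cx w)) z) = pb k (fun y => conj (pb l (cx w) y)) z :=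
    (d01_conj (a := e k) h1).symm
  have h3 : (fun y => conj (pb l (cx w) y)) =ᶠ[𝓝 z] pk l (cx w) := by
    filter_upwards [hU.mem_nhds hz] with y hy
    rw [pk_cx (diffAt_of hU hcw hy)]
  rw [h2, pb_congr h3, pk_pb_comm (hcw.contDiffAt (hU.mem_nhds hz))]

end Pool.Agent.DTW
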