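import Pool.Agent.DTW.Comm

/-!
Linear algebra: the pairing of hermitian forms given by the Poisson bivector and its conjugate.
-/

open scoped ComplexConjugate ComplexOrder
open Complex

namespace Pool.Agent.DTW

variable {n : ℕ}

/-- contraction of two hermitian forms with the Poisson bivector and its conjugate -/
def QQ (F V : Ix n → Ix n → ℂ) : ℂ :=
  ∑ k : Ix n, ∑ l : Ix n, sg k * sg l * F k.swap l.swap * V k l

theorem sg_sq (k : Ix n) : sg k * sg k = 1 := by
  cases k <;> simp [sg]

theorem sg_swap (k : Ix n) : sg k.swap = -sg k := by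
  cases k <;> simp [sg]

theorem conj_sg (k : Ix n) : conj (sg k) = sg k := by
  cases k <;> simp [sg]

theorem sum_swap (f : Ix n → ℂ) : ∑ k : Ix n, f k.swap = ∑ k : Ix n, f k :=
  (Equiv.sumComm (Fin n) (Fin n)).sum_comp f

/-- the pairing is antisymmetric -/
theorem sum_sg_anti (c d : Ix n → ℂ) :
    ∑ k : Ix n, sg k * c k.swap * d k = -∑ k : Ix n, sg k * d k.swap * c k := by
  rw [← sum_swap (fun k => sg k * c k.swap * d k), ← Finset.sum_neg_distrib]
  refine Finset.sum_congr rfl fun k _ => ?_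
  rw [Sum.swap_swap, sg_swap]
  ring

/-- positive semidefinite hermitian matrix -/
structure Psd (F : Ix n → Ix n → ℂ) : Prop where
  herm : ∀ k l, conj (F k l) = F l k
  pos : ∀ a : E n, 0 ≤ (∑ k, ∑ l, a k * conj (a l) * F k l).re

theorem Psd.matrix {F : Ix n → Ix n → ℂ} (h : Psd F) : (Matrix.of F).PosSemidef := by
  have hh : (Matrix.of F).IsHermitian := by
    ext k l
    simp [Matrix.conjTranspose_apply, h.herm]
  refine Matrix.PosSemidef.of_dotProduct_mulVec_nonneg hh fun x => ?_
  have h1 : star x ⬝ᵥ (Matrix.of F).mulVec x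
      = ∑ k, ∑ l, conj (x k) * conj (conj (x l)) * F k l := by
    simp only [dotProduct, Matrix.mulVec, Finset.mul_sum]
    refine Finset.sum_congr rfl fun k _ => Finset.sum_congr rfl fun l _ => ?_
    simp
    ring
  rw [h1]
  have h2 := h.pos (fun k => conj (x k))
  rw [Complex.le_def]
  refine ⟨by simpa using h2, ?_⟩
  have h3 : conj (∑ k, ∑ l, conj (x k) * conj (conj (x l)) * F k l)
      = ∑ k, ∑ l, conj (x k) * conj (conj (x l)) * F k l := by
    simp only [map_sum, map_mul, Complex.conj_conj, h.herm]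
    rw [Finset.sum_comm]
    refine Finset.sum_congr rfl fun k _ => Finset.sum_congr rfl fun l _ => ?_
    ring
  have h4 := Complex.conj_eq_iff_im.1 h3
  simp only [Complex.zero_im]
  exact h4.symm

theorem Psd.gram {F : Ix n → Ix n → ℂ} (h : Psd F) :
    ∃ (m : ℕ) (v : Fin m → Ix n → ℂ), ∀ k l, F k l = ∑ p, v p k * conj (v p l) := by
  obtain ⟨m, v, hv⟩ := Matrix.posSemidef_iff_eq_sum_vecMulVec.1 h.matrix
  refine ⟨m, v, fun k l => ?_⟩
  have := congrFun (congrFun hv k) l
  simpa [Matrix.sum_apply, Matrix.vecMulVec_apply] using this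

theorem sum4 {α β γ δ : Type*} [Fintype α] [Fintype β] [Fintype γ] [Fintype δ]
    (f : α → β → γ → δ → ℂ) :
    ∑ k, ∑ l, ∑ p, ∑ q, f k l p q = ∑ p, ∑ q, ∑ k, ∑ l, f k l p q := by
  calc ∑ k, ∑ l, ∑ p, ∑ q, f k l p q = ∑ k, ∑ p, ∑ l, ∑ q, f k l p q :=
        Finset.sum_congr rfl fun k _ => Finset.sum_comm
    _ = ∑ p, ∑ k, ∑ l, ∑ q, f k l p q := Finset.sum_comm
    _ = ∑ p, ∑ k, ∑ q, ∑ l, f k l p q :=
        Finset.sum_congr rfl fun p _ => Finset.sum_congr rfl fun k _ => Finset.sum_comm
    _ = ∑ p, ∑ q, ∑ k, ∑ l, f k l p q := Finset.sum_congr rfl fun p _ => Finset.sum_comm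

theorem QQ_gram {m m' : ℕ} {v : Fin m → Ix n → ℂ} {u : Fin m' → Ix n → ℂ}
    {F V : Ix n → Ix n → ℂ} (hF : ∀ k l, F k l = ∑ p, v p k * conj (v p l))
    (hV : ∀ k l, V k l = ∑ q, u q k * conj (u q l)) :
    QQ F V = ∑ p, ∑ q, ((Complex.normSq (∑ k, sg k * v p k.swap * u q k) : ℝ) : ℂ) := by
  have h1 : ∀ p q, ((Complex.normSq (∑ k, sg k * v p k.swap * u q k) : ℝ) : ℂ)
      = ∑ k, ∑ l, sg k * sg l * (v p k.swap * conj (v p l.swap)) * (u q k * conj (u q l)) := by
    intro p q
    rw [← Complex.mul_conj, map_sum, Finset.sum_mul_sum]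
    refine Finset.sum_congr rfl fun k _ => Finset.sum_congr rfl fun l _ => ?_
    simp only [map_mul, conj_sg]
    ring
  simp only [h1]
  unfold QQ
  rw [← sum4]
  refine Finset.sum_congr rfl fun k _ => Finset.sum_congr rfl fun l _ => ?_
  rw [hF, hV, mul_assoc, Finset.sum_mul_sum, Finset.mul_sum]
  refine Finset.sum_congr rfl fun p _ => ?_
  rw [Finset.mul_sum]
  refine Finset.sum_congr rfl fun q _ => ?_
  ring

/-- positivity of the pairing -/
theorem QQ_nonneg {F V : Ix n → Ix n → ℂ} (hF : Psd F) (hV : Psd V) : 0 ≤ (QQ F V).re := by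
  obtain ⟨m, v, hv⟩ := hF.gram
  obtain ⟨m', u, hu⟩ := hV.gram
  rw [QQ_gram hv hu]
  simp only [Complex.re_sum, Complex.ofReal_re]
  exact Finset.sum_nonneg fun p _ => Finset.sum_nonneg fun q _ => Complex.normSq_nonneg _

/-- isotropy -/
def Iso (F : Ix n → Ix n → ℂ) : Prop :=
  ∀ l j, ∑ i : Ix n, sg i * F i.swap l * F i j = 0

theorem iso_of_QQ {F : Ix n → Ix n → ℂ} (hF : Psd F) (h : (QQ F F).re = 0) : Iso F := by
  obtain ⟨m, v, hv⟩ := hF.gram
  rw [QQ_gram hv hv] at h
  simp only [Complex.re_sum, Complex.ofReal_re] at h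
  have h1 := (Finset.sum_eq_zero_iff_of_nonneg
    (fun p _ => Finset.sum_nonneg fun q _ => Complex.normSq_nonneg _)).1 h
  have h2 : ∀ p q, ∑ k : Ix n, sg k * v p k.swap * v q k = 0 := by
    intro p q
    have h3 := (Finset.sum_eq_zero_iff_of_nonneg (fun q _ => Complex.normSq_nonneg _)).1
      (h1 p (Finset.mem_univ p)) q (Finset.mem_univ q)
    exact Complex.normSq_eq_zero.1 h3
  intro l j
  have h4 : ∑ i : Ix n, sg i * F i.swap l * F i j
      = ∑ p, ∑ q, conj (v p l) * conj (v q j) * ∑ k : Ix n, sg k * v p k.swap * v q k := by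
    simp only [Finset.mul_sum]
    have h5 : ∀ i : Ix n, sg i * F i.swap l * F i j
        = ∑ p, ∑ q, conj (v p l) * conj (v q j) * (sg i * v p i.swap * v q i) := by
      intro i
      rw [hv, hv, mul_assoc, Finset.sum_mul_sum, Finset.mul_sum]
      refine Finset.sum_congr rfl fun p _ => ?_
      rw [Finset.mul_sum]
      refine Finset.sum_congr rfl fun q _ => ?_
      ring
    simp only [h5]
    rw [Finset.sum_comm]
    refine Finset.sum_congr rfl fun p _ => ?_
    rw [Finset.sum_comm]
  rw [h4]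
  simp [h2]

/-- kernel of a positive semidefinite form -/
theorem Psd.ker {F : Ix n → Ix n → ℂ} (hF : Psd F) (x : Ix n → ℂ)
    (h : (∑ k, ∑ l, F k l * x k * conj (x l)).re = 0) (j : Ix n) : ∑ k, F k j * x k = 0 := by
  obtain ⟨m, v, hv⟩ := hF.gram
  have h1 : ∑ k, ∑ l, F k l * x k * conj (x l)
      = ∑ p, ((Complex.normSq (∑ k, v p k * x k) : ℝ) : ℂ) := by
    have h2 : ∀ p, ((Complex.normSq (∑ k, v p k * x k) : ℝ) : ℂ)
        = ∑ k, ∑ l, v p k * x k * (conj (v p l) * conj (x l)) := by
      intro p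
      rw [← Complex.mul_conj, map_sum, Finset.sum_mul_sum]
      simp only [map_mul]
    simp only [h2]
    have h3 : ∑ p, ∑ k, ∑ l, v p k * x k * (conj (v p l) * conj (x l))
        = ∑ k, ∑ l, ∑ p, v p k * x k * (conj (v p l) * conj (x l)) := by
      rw [Finset.sum_comm]
      exact Finset.sum_congr rfl fun k _ => Finset.sum_comm
    rw [h3]
    refine Finset.sum_congr rfl fun k _ => Finset.sum_congr rfl fun l _ => ?_
    rw [hv, Finset.sum_mul, Finset.sum_mul]
    refine Finset.sum_congr rfl fun p _ => ?_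
    ring
  rw [h1] at h
  simp only [Complex.re_sum, Complex.ofReal_re] at h
  have h2 := (Finset.sum_eq_zero_iff_of_nonneg (fun p _ => Complex.normSq_nonneg _)).1 h
  have h3 : ∀ p, ∑ k, v p k * x k = 0 := fun p =>
    Complex.normSq_eq_zero.1 (h2 p (Finset.mem_univ p))
  have h4 : ∑ k, F k j * x k = ∑ p, conj (v p j) * ∑ k, v p k * x k := by
    simp only [Finset.mul_sum]
    rw [Finset.sum_comm]
    refine Finset.sum_congr rfl fun k _ => ?_
    rw [hv, Finset.sum_mul]
    refine Finset.sum_congr rfl fun p _ => ?_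
    ring
  rw [h4]
  simp [h3]

/-- value of the standard symplectic form -/
theorem S_eq (a b : E n) : S a b = ∑ k : Ix n, sg k * a k * b k.swap := by
  rw [Fintype.sum_sum_type]
  unfold S
  rw [← Finset.sum_add_distrib]
  refine Finset.sum_congr rfl fun i _ => ?_
  simp [sg]
  ring

theorem S_single (a : E n) (k : Ix n) : S a (e k) = -sg k * a k.swap := by
  rw [S_eq]
  rw [Finset.sum_eq_single k.swap]
  · rw [Sum.swap_swap, sg_swap]
    simp [e]
  · intro j _ hj
    have : j.swap ≠ k := by
      intro h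
      apply hj
      rw [← h, Sum.swap_swap]
    simp [e, Pi.single_apply, this]
  · simp

theorem J_apply (a b : Ix n) : Matrix.J (Fin n) ℂ a b = if a = b.swap then sg b else 0 := by
  rcases a with a | a <;> rcases b with b | b <;>
    simp [Matrix.J, sg, Matrix.one_apply, Matrix.fromBlocks]
  split_ifs <;> simp

theorem S_J (a b : E n) : S a b = -(a ⬝ᵥ (Matrix.J (Fin n) ℂ).mulVec b) := by
  rw [S_eq]
  simp only [dotProduct, Matrix.mulVec, J_apply]
  rw [← Finset.sum_neg_distrib]
  refine Finset.sum_congr rfl fun k _ => ?_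
  rw [Finset.sum_eq_single k.swap]
  · rw [Sum.swap_swap, sg_swap]
    simp
    ring
  · intro j _ hj
    have : k ≠ j.swap := by
      intro h
      apply hj
      rw [h, Sum.swap_swap]
    simp [this]
  · simp

/-- a linear map preserving the form has a symplectic matrix -/
theorem symp_matrix {T : Ix n → Ix n → ℂ}
    (hT : ∀ a b : E n, S (fun p => ∑ k, T p k * a k) (fun p => ∑ k, T p k * b k) = S a b) :
    Matrix.of T ∈ Matrix.symplecticGroup (Fin n) ℂ := by
  set M : Matrix (Ix n) (Ix n) ℂ := Matrix.of T with hM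
  rw [SymplecticGroup.mem_iff']
  ext a b
  have h2 := hT (Pi.single a 1) (Pi.single b 1)
  rw [S_J, S_J, neg_inj] at h2
  have h3 : ∀ c : Ix n, (fun p => ∑ k, T p k * (Pi.single c 1 : E n) k) = fun p => T p c := by
    intro c
    funext p
    rw [Finset.sum_eq_single c]
    · simp
    · intro j _ hj
      simp [hj]
    · simp
  rw [h3, h3] at h2
  have h4 : (Pi.single a 1 : E n) ⬝ᵥ (Matrix.J (Fin n) ℂ).mulVec (Pi.single b 1 : E n)
      = Matrix.J (Fin n) ℂ a b := by
    rw [single_one_dotProduct, Matrix.mulVec_single_one]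
    rfl
  rw [h4] at h2
  rw [← h2]
  simp only [Matrix.mul_apply, dotProduct, Matrix.mulVec, Matrix.transpose_apply, hM,
    Matrix.of_apply, Finset.sum_mul, Finset.mul_sum]
  rw [Finset.sum_comm]
  refine Finset.sum_congr rfl fun k _ => Finset.sum_congr rfl fun l _ => ?_
  ring

theorem QQ_trace (F V : Ix n → Ix n → ℂ) :
    QQ F V = Matrix.trace ((Matrix.J (Fin n) ℂ).transpose * Matrix.of F * Matrix.J (Fin n) ℂ
      * (Matrix.of V).transpose) := by
  unfold QQ
  simp only [Matrix.trace, Matrix.diag_apply, Matrix.mul_apply, Matrix.transpose_apply,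
    Matrix.of_apply, J_apply]
  refine Finset.sum_congr rfl fun k _ => Finset.sum_congr rfl fun l _ => ?_
  congr 1
  simp only [ite_mul, zero_mul, Finset.sum_ite_eq', Finset.mem_univ, if_true, mul_ite, mul_zero]
  ring

/-- invariance of the pairing under symplectic linear maps -/
theorem QQ_symp {T : Ix n → Ix n → ℂ}
    (hT : ∀ a b : E n, S (fun p => ∑ k, T p k * a k) (fun p => ∑ k, T p k * b k) = S a b)
    {F V F' V' : Ix n → Ix n → ℂ}
    (hF : ∀ k l, F' k l = ∑ p, ∑ q, T p k * conj (T q l) * F p q)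
    (hV : ∀ k l, V' k l = ∑ r, ∑ s, T r k * conj (T s l) * V r s) :
    QQ F' V' = QQ F V := by
  have hM := symp_matrix hT
  set M : Matrix (Ix n) (Ix n) ℂ := Matrix.of T with hMdef
  set N : Matrix (Ix n) (Ix n) ℂ := M.map (starRingEnd ℂ) with hN
  set J := Matrix.J (Fin n) ℂ with hJ
  have h1 : M * J * M.transpose = J := SymplecticGroup.mem_iff.1 hM
  have h2 : M * J.transpose * M.transpose = J.transpose := by
    have := congrArg Matrix.transpose h1
    simpa [Matrix.transpose_mul, Matrix.mul_assoc] using this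
  have h3 : N * J * N.transpose = J := by
    have h4 := congrArg (fun A : Matrix (Ix n) (Ix n) ℂ => A.map (starRingEnd ℂ)) h1
    simp only [Matrix.map_mul] at h4
    have h5 : J.map (starRingEnd ℂ) = J := by
      ext a b
      rw [Matrix.map_apply, hJ, J_apply]
      split_ifs
      · exact conj_sg _
      · simp
    rw [h5, Matrix.transpose_map] at h4
    exact h4
  have hF' : Matrix.of F' = M.transpose * Matrix.of F * N := by
    ext k l
    simp only [Matrix.mul_apply, Matrix.transpose_apply, Matrix.of_apply, hMdef, hN,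
      Matrix.map_apply, Finset.sum_mul]
    rw [hF, Finset.sum_comm]
    refine Finset.sum_congr rfl fun p _ => Finset.sum_congr rfl fun q _ => ?_
    ring
  have hV' : Matrix.of V' = M.transpose * Matrix.of V * N := by
    ext k l
    simp only [Matrix.mul_apply, Matrix.transpose_apply, Matrix.of_apply, hMdef, hN,
      Matrix.map_apply, Finset.sum_mul]
    rw [hV, Finset.sum_comm]
    refine Finset.sum_congr rfl fun p _ => Finset.sum_congr rfl fun q _ => ?_
    ring
  rw [QQ_trace, QQ_trace, hF', hV', Matrix.transpose_mul, Matrix.transpose_mul,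
    Matrix.transpose_transpose]
  have h6 : J.transpose * (M.transpose * Matrix.of F * N) * J
      * (N.transpose * ((Matrix.of V).transpose * M))
      = (J.transpose * M.transpose * Matrix.of F * (N * J * N.transpose)
        * (Matrix.of V).transpose) * M := by
    simp only [Matrix.mul_assoc]
  rw [h6, h3, Matrix.trace_mul_comm]
  have h7 : M * (J.transpose * M.transpose * Matrix.of F * J * (Matrix.of V).transpose)
      = (M * J.transpose * M.transpose) * Matrix.of F * J * (Matrix.of V).transpose := by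
    simp only [Matrix.mul_assoc]
  rw [h7, h2]

end Pool.Agent.DTW
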