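import Mathlib

/-!
Definitions: compact holomorphic symplectic manifolds given by an atlas of holomorphic Darboux
charts, holomorphic line bundles with a smooth hermitian metric, the complex structures `I_t`
whose vectors of type (0,1) are the kernel of `σ + t ∂∂̄ w` (degenerate twistor deformation), and
the sections of the powers of the line bundle that are holomorphic for `I_t`.
-/

open scoped ContDiff
open Complex MeasureTheory

namespace Pool.Agent.DTW

/-- The index set of the coordinates of `ℂ^(2n)`. -/
abbrev Ix (n : ℕ) : Type := Fin n ⊕ Fin n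

/-- The space `ℂ^(2n)`. -/
abbrev E (n : ℕ) : Type := Ix n → ℂ

variable {n : ℕ}

/-- The standard holomorphic symplectic form `∑ dz_(inl i) ∧ dz_(inr i)` of `ℂ^(2n)`. -/
def S (a b : E n) : ℂ :=
  ∑ i : Fin n, (a (Sum.inl i) * b (Sum.inr i) - a (Sum.inr i) * b (Sum.inl i))

/-- The value at `z` of `∂f` on the vector of type (1,0) given by `a`:
`(Df(z)(a) - i Df(z)(i a)) / 2`, where `Df` is the real derivative. -/
noncomputable def d10 (f : E n → ℂ) (z a : E n) : ℂ :=
  (fderiv ℝ f z a - I * fderiv ℝ f z (I • a)) / 2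

/-- The value at `z` of `∂̄f` on the vector of type (0,1) given by `b`:
`(Df(z)(b) + i Df(z)(i b)) / 2`. -/
noncomputable def d01 (f : E n → ℂ) (z b : E n) : ℂ :=
  (fderiv ℝ f z b + I * fderiv ℝ f z (I • b)) / 2

/-- The Levi form of the real function `w` at `z`, `∂_a ∂̄_b w`: linear in `a`, conjugate linear
in `b`. -/
noncomputable def levi (w : E n → ℝ) (z a b : E n) : ℂ :=
  d10 (fun y => d01 (fun x => (w x : ℂ)) y b) z a

/-- The `k`-th vector of the standard basis of `ℂ^(2n)`. -/
def e (k : Ix n) : E n := Pi.single k 1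

/-- The sign `1` on the first and `-1` on the second half of the indices. -/
def sg (k : Ix n) : ℂ := Sum.elim (fun _ => 1) (fun _ => -1) k

/-- The density of `(∂∂̄w)² ∧ (σ σ̄)^(n-1)` against `(σ σ̄)^n` at `z`, up to a positive constant
factor: the Levi form of `w` twice contracted with the Poisson bivector and its conjugate,
`∑ sg k sg l w_(k' l̄') w_(k l̄)` with `k'` the index conjugate to `k`. -/
noncomputable def qDens (w : E n → ℝ) (z : E n) : ℝ :=
  (∑ k : Ix n, ∑ l : Ix n,
    sg k * sg l * levi w z (e k.swap) (e l.swap) * levi w z (e k) (e l)).re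

/-- A holomorphic symplectic manifold of dimension `2n` with underlying space `X`, given by
holomorphic Darboux charts `c i`: the changes of charts are holomorphic and preserve `S`. -/
structure Atlas (n : ℕ) (X : Type*) [TopologicalSpace X] (ι : Type*) where
  /-- the charts -/
  c : ι → OpenPartialHomeomorph X (E n)
  cover : ∀ x : X, ∃ i, x ∈ (c i).source
  hol : ∀ i j, ContDiffOn ℂ ∞ (c j ∘ (c i).symm)
    {z | z ∈ (c i).target ∧ (c i).symm z ∈ (c j).source}
  symp : ∀ i j z, z ∈ (c i).target → (c i).symm z ∈ (c j).source → ∀ a b : E n,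
    S (fderiv ℂ (c j ∘ (c i).symm) z a) (fderiv ℂ (c j ∘ (c i).symm) z b) = S a b

variable {X : Type*} [TopologicalSpace X] {ι : Type*}

/-- `μ` is the volume measure `(σ σ̄)^n` of `X`: Lebesgue measure in every chart. -/
def Atlas.IsVolume [MeasurableSpace X] (A : Atlas n X ι) (μ : Measure X) : Prop :=
  ∀ (i : ι) (s : Set (E n)), s ⊆ (A.c i).target → MeasurableSet s →
    μ ((A.c i).symm '' s) = volume s

/-- A holomorphic line bundle `L` on `X` with a smooth hermitian metric: frames over the chart
domains with transition functions `g i j` (sections satisfy `s_i = g i j s_j`) and weights `w i`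
(`|s|² = |s_i|² exp (-w_i)`). -/
structure Bundle (A : Atlas n X ι) where
  /-- transition functions -/
  g : ι → ι → X → ℂ
  /-- local weights of the metric -/
  w : ι → X → ℝ
  ne : ∀ i j x, x ∈ (A.c i).source → x ∈ (A.c j).source → g i j x ≠ 0
  mul : ∀ i j k x, x ∈ (A.c i).source → x ∈ (A.c j).source → x ∈ (A.c k).source →
    g i j x * g j k x = g i k x
  hol : ∀ i j, ContDiffOn ℂ ∞ (g i j ∘ (A.c i).symm)
    {z | z ∈ (A.c i).target ∧ (A.c i).symm z ∈ (A.c j).source}
  smooth : ∀ i, ContDiffOn ℝ ∞ (w i ∘ (A.c i).symm) (A.c i).target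
  trans : ∀ i j x, x ∈ (A.c i).source → x ∈ (A.c j).source →
    w i x = w j x + 2 * Real.log ‖g i j x‖

variable {A : Atlas n X ι}

/-- The weight of the metric in the chart `i`, as a function of the coordinates. -/
noncomputable def Bundle.wt (B : Bundle A) (i : ι) (z : E n) : ℝ := B.w i ((A.c i).symm z)

/-- The curvature of the metric is semipositive. -/
def Bundle.Semipositive (B : Bundle A) : Prop :=
  ∀ i, ∀ z ∈ (A.c i).target, ∀ a : E n, 0 ≤ (levi (B.wt i) z a a).re

/-- `q` is the density of `η² ∧ (σ σ̄)^(n-1)`, where `η` is the curvature form of the metric,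
against the volume form `(σ σ̄)^n` (up to a positive constant factor): it equals `qDens` of the
weight in every chart. So `q(L, L)` is a positive multiple of `∫ x, q x ∂μ`. -/
def Bundle.IsDensity (B : Bundle A) (q : X → ℝ) : Prop :=
  ∀ i, ∀ x ∈ (A.c i).source, q x = qDens (B.wt i) (A.c i x)

/-- A smooth section of the power `L^m`, `m : ℤ`. -/
structure Bundle.IsSection (B : Bundle A) (m : ℤ) (s : ι → X → ℂ) : Prop where
  trans : ∀ i j x, x ∈ (A.c i).source → x ∈ (A.c j).source → s i x = B.g i j x ^ m * s j x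
  smooth : ∀ i, ContDiffOn ℝ ∞ (s i ∘ (A.c i).symm) (A.c i).target

/-- The section `s` is holomorphic for the original complex structure. -/
def Bundle.IsHol (_B : Bundle A) (s : ι → X → ℂ) : Prop :=
  ∀ i, DifferentiableOn ℂ (s i ∘ (A.c i).symm) (A.c i).target

/-- The complex tangent vector `a^(1,0) + b^(0,1)` at the point `z` of a chart with weight `w`
lies in the kernel of `σ + t ∂∂̄ w`: it has type (0,1) for the complex structure `I_t`. -/
def IsZeroOne (t : ℂ) (w : E n → ℝ) (z a b : E n) : Prop :=
  ∀ a' b' : E n, S a a' + t * (levi w z a b' - levi w z a' b) = 0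

/-- The section `s` of `L^m` is holomorphic for `I_t`: its covariant derivative for the Chern
connection of the metric vanishes on all vectors of type (0,1) for `I_t`. -/
def Bundle.IsHolT (B : Bundle A) (t : ℂ) (m : ℤ) (s : ι → X → ℂ) : Prop :=
  ∀ i, ∀ z ∈ (A.c i).target, ∀ a b : E n, IsZeroOne t (B.wt i) z a b →
    d10 (s i ∘ (A.c i).symm) z a
      - m * d10 (fun y => (B.wt i y : ℂ)) z a * (s i ∘ (A.c i).symm) z
      + d01 (s i ∘ (A.c i).symm) z b = 0

/-- `L` is semiample: some positive power of `L` is generated by its holomorphic sections. -/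
def Bundle.Semiample (B : Bundle A) : Prop :=
  ∃ m : ℤ, 1 ≤ m ∧ ∀ i, ∀ x ∈ (A.c i).source,
    ∃ s : ι → X → ℂ, B.IsSection m s ∧ B.IsHol s ∧ s i x ≠ 0

/-- `L` is semiample for `I_t`: some positive power of `L` is generated by its sections that are
holomorphic for `I_t`. -/
def Bundle.SemiampleT (B : Bundle A) (t : ℂ) : Prop :=
  ∃ m : ℤ, 1 ≤ m ∧ ∀ i, ∀ x ∈ (A.c i).source,
    ∃ s : ι → X → ℂ, B.IsSection m s ∧ B.IsHolT t m s ∧ s i x ≠ 0

end Pool.Agent.DTW
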