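import Pool.Agent.DTW.Sto

/-!
The second order operator on functions of the manifold.
-/

open scoped ContDiff ComplexConjugate Topology
open Complex MeasureTheory

namespace Pool.Agent.DTW

variable {n : ℕ} {X : Type*} [TopologicalSpace X] {ι : Type*}

/-- a function in the coordinates of a chart -/
noncomputable def vt (A : Atlas n X ι) (v : X → ℝ) (i : ι) (z : E n) : ℝ := v ((A.c i).symm z)

/-- smooth functions -/
def Sm (A : Atlas n X ι) (v : X → ℝ) : Prop := ∀ i, ContDiffOn ℝ ∞ (vt A v i) (A.c i).target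

/-- overlap of two charts in the coordinates of the first -/
def Uo (A : Atlas n X ι) (i j : ι) : Set (E n) :=
  {z | z ∈ (A.c i).target ∧ (A.c i).symm z ∈ (A.c j).source}

/-- change of charts -/
noncomputable def ph (A : Atlas n X ι) (i j : ι) : E n → E n := A.c j ∘ (A.c i).symm

theorem isOpen_Uo (A : Atlas n X ι) (i j : ι) : IsOpen (Uo A i j) :=
  (A.c i).symm.isOpen_inter_preimage (A.c j).open_source

theorem ph_mem {A : Atlas n X ι} {i j : ι} {z : E n} (hz : z ∈ Uo A i j) :
    ph A i j z ∈ (A.c j).target := (A.c j).map_source hz.2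

theorem symm_ph {A : Atlas n X ι} {i j : ι} {z : E n} (hz : z ∈ Uo A i j) :
    (A.c j).symm (ph A i j z) = (A.c i).symm z := (A.c j).left_inv hz.2

theorem ph_chart {A : Atlas n X ι} {i j : ι} {x : X} (hi : x ∈ (A.c i).source) :
    ph A i j (A.c i x) = A.c j x := by
  unfold ph
  simp [(A.c i).left_inv hi]

theorem mem_Uo {A : Atlas n X ι} {i j : ι} {x : X} (hi : x ∈ (A.c i).source)
    (hj : x ∈ (A.c j).source) : A.c i x ∈ Uo A i j := by
  refine ⟨(A.c i).map_source hi, ?_⟩
  rw [(A.c i).left_inv hi]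
  exact hj

theorem contDiffOn_ph (A : Atlas n X ι) (i j : ι) : ContDiffOn ℂ ∞ (ph A i j) (Uo A i j) :=
  A.hol i j

theorem symp_TT (A : Atlas n X ι) {i j : ι} {z : E n} (hz : z ∈ Uo A i j) (a b : E n) :
    S (fun p => ∑ k, TT (ph A i j) z p k * a k) (fun p => ∑ k, TT (ph A i j) z p k * b k)
      = S a b := by
  have h1 : ∀ a : E n, (fun p => ∑ k, TT (ph A i j) z p k * a k) = fderiv ℂ (ph A i j) z a := by
    intro a
    funext p
    rw [TT_apply]
  rw [h1, h1]
  exact A.symp i j z hz.1 hz.2 a b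

theorem chg_vt {A : Atlas n X ι} {v : X → ℝ} (hv : Sm A v) {i j : ι} {z : E n}
    (hz : z ∈ Uo A i j) (k l : Ix n) :
    LM (vt A v i) z k l = ∑ p, ∑ q, TT (ph A i j) z p k * conj (TT (ph A i j) z q l)
      * LM (vt A v j) (ph A i j z) p q := by
  have h1 : vt A v i =ᶠ[𝓝 z] fun y => vt A v j (ph A i j y) := by
    filter_upwards [(isOpen_Uo A i j).mem_nhds hz] with y hy
    unfold vt
    rw [symm_ph hy]
  rw [LM_congr h1]
  exact chg (isOpen_Uo A i j) (contDiffOn_ph A i j) (A.c j).open_target (hv j) hz (ph_mem hz) k l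

variable {A : Atlas n X ι}

theorem chg_wt (B : Bundle A) {i j : ι} {z : E n} (hz : z ∈ Uo A i j) (k l : Ix n) :
    LM (B.wt i) z k l = ∑ p, ∑ q, TT (ph A i j) z p k * conj (TT (ph A i j) z q l)
      * LM (B.wt j) (ph A i j z) p q := by
  have h1 : B.wt i =ᶠ[𝓝 z] fun y => B.wt j (ph A i j y)
      + 2 * Real.log ‖B.g i j ((A.c i).symm y)‖ := by
    filter_upwards [(isOpen_Uo A i j).mem_nhds hz] with y hy
    unfold Bundle.wt
    rw [symm_ph hy]
    exact B.trans i j _ ((A.c i).map_target hy.1) hy.2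
  have hg : ContDiffOn ℂ ∞ (fun y => B.g i j ((A.c i).symm y)) (Uo A i j) := B.hol i j
  have hg0 : ∀ y ∈ Uo A i j, B.g i j ((A.c i).symm y) ≠ 0 := fun y hy =>
    B.ne i j _ ((A.c i).map_target hy.1) hy.2
  have hw : ContDiffOn ℝ ∞ (fun y => B.wt j (ph A i j y)) (Uo A i j) :=
    (B.smooth j).comp ((contDiffOn_ph A i j).restrict_scalars ℝ) fun y hy => ph_mem hy
  rw [LM_congr h1, LM_add (isOpen_Uo A i j) hw (contDiffOn_log hg hg0) hz,
    LM_log (isOpen_Uo A i j) hg hg0 hz, add_zero]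
  exact chg (isOpen_Uo A i j) (contDiffOn_ph A i j) (A.c j).open_target (B.smooth j) hz
    (ph_mem hz) k l

/-- the density does not depend on the chart -/
theorem QQ_chart (B : Bundle A) {v : X → ℝ} (hv : Sm A v) {i j : ι} {x : X}
    (hi : x ∈ (A.c i).source) (hj : x ∈ (A.c j).source) :
    QQ (LM (B.wt i) (A.c i x)) (LM (vt A v i) (A.c i x))
      = QQ (LM (B.wt j) (A.c j x)) (LM (vt A v j) (A.c j x)) := by
  have hz := mem_Uo hi hj
  rw [← ph_chart (A := A) (i := i) (j := j) hi]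
  exact QQ_symp (T := TT (ph A i j) (A.c i x)) (symp_TT A hz)
    (fun k l => chg_wt B hz k l) (fun k l => chg_vt hv hz k l)

theorem QQ_chart_self (B : Bundle A) {i j : ι} {x : X}
    (hi : x ∈ (A.c i).source) (hj : x ∈ (A.c j).source) :
    QQ (LM (B.wt i) (A.c i x)) (LM (B.wt i) (A.c i x))
      = QQ (LM (B.wt j) (A.c j x)) (LM (B.wt j) (A.c j x)) := by
  have hz := mem_Uo hi hj
  rw [← ph_chart (A := A) (i := i) (j := j) hi]
  exact QQ_symp (T := TT (ph A i j) (A.c i x)) (symp_TT A hz)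
    (fun k l => chg_wt B hz k l) (fun k l => chg_wt B hz k l)

/-- a chart at a point -/
noncomputable def ix (A : Atlas n X ι) (x : X) : ι := (A.cover x).choose

theorem mem_ix (A : Atlas n X ι) (x : X) : x ∈ (A.c (ix A x)).source := (A.cover x).choose_spec

/-- the operator -/
noncomputable def P (B : Bundle A) (v : X → ℝ) (x : X) : ℝ :=
  (QQ (LM (B.wt (ix A x)) (A.c (ix A x) x)) (LM (vt A v (ix A x)) (A.c (ix A x) x))).re

theorem P_eq (B : Bundle A) {v : X → ℝ} (hv : Sm A v) {i : ι} {x : X}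
    (hi : x ∈ (A.c i).source) :
    P B v x = (QQ (LM (B.wt i) (A.c i x)) (LM (vt A v i) (A.c i x))).re := by
  unfold P
  rw [QQ_chart B hv (mem_ix A x) hi]

theorem contDiffOn_LM {w : E n → ℝ} {U : Set (E n)} (hU : IsOpen U) (hw : ContDiffOn ℝ ∞ w U)
    (k l : Ix n) : ContDiffOn ℝ ∞ (fun z => LM w z k l) U :=
  contDiffOn_pk hU (contDiffOn_pb hU (contDiffOn_cx hw) l) k

theorem contDiffOn_QQ {w v : E n → ℝ} {U : Set (E n)} (hU : IsOpen U)
    (hw : ContDiffOn ℝ ∞ w U) (hv : ContDiffOn ℝ ∞ v U) :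
    ContDiffOn ℝ ∞ (fun z => QQ (LM w z) (LM v z)) U := by
  unfold QQ
  exact ContDiffOn.sum fun k _ => ContDiffOn.sum fun l _ =>
    (contDiffOn_const.mul (contDiffOn_LM hU hw _ _)).mul (contDiffOn_LM hU hv _ _)

theorem continuous_of_charts (A : Atlas n X ι) {h : X → ℝ}
    (H : ∀ i, ∃ G : E n → ℝ, ContinuousOn G (A.c i).target ∧
      ∀ x ∈ (A.c i).source, h x = G (A.c i x)) : Continuous h := by
  rw [continuous_iff_continuousAt]
  intro x
  obtain ⟨G, hG, hx⟩ := H (ix A x)
  have hs := mem_ix A x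
  have h1 : h =ᶠ[𝓝 x] fun y => G (A.c (ix A x) y) := by
    filter_upwards [(A.c (ix A x)).open_source.mem_nhds hs] with y hy
    exact hx y hy
  have h2 : ContinuousAt (fun y => G (A.c (ix A x) y)) x := by
    have h3 : ContinuousAt G (A.c (ix A x) x) :=
      hG.continuousAt ((A.c (ix A x)).open_target.mem_nhds ((A.c (ix A x)).map_source hs))
    exact ContinuousAt.comp (f := A.c (ix A x)) h3 ((A.c (ix A x)).continuousAt hs)
  exact h2.congr h1.symm

theorem continuous_P (B : Bundle A) {v : X → ℝ} (hv : Sm A v) : Continuous (P B v) := by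
  refine continuous_of_charts A fun i =>
    ⟨fun z => (QQ (LM (B.wt i) z) (LM (vt A v i) z)).re, ?_, fun x hx => P_eq B hv hx⟩
  exact Complex.continuous_re.comp_continuousOn
    (contDiffOn_QQ (A.c i).open_target (B.smooth i) (hv i)).continuousOn

theorem Sm.add {v v' : X → ℝ} (hv : Sm A v) (hv' : Sm A v') : Sm A (fun x => v x + v' x) :=
  fun i => (hv i).add (hv' i)

theorem Sm.mul {v v' : X → ℝ} (hv : Sm A v) (hv' : Sm A v') : Sm A (fun x => v x * v' x) :=
  fun i => (hv i).mul (hv' i)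

theorem QQ_add_right (F V V' : Ix n → Ix n → ℂ) :
    QQ F (fun k l => V k l + V' k l) = QQ F V + QQ F V' := by
  unfold QQ
  rw [← Finset.sum_add_distrib]
  refine Finset.sum_congr rfl fun k _ => ?_
  rw [← Finset.sum_add_distrib]
  refine Finset.sum_congr rfl fun l _ => ?_
  ring

theorem P_add (B : Bundle A) {v v' : X → ℝ} (hv : Sm A v) (hv' : Sm A v') (x : X) :
    P B (fun x => v x + v' x) x = P B v x + P B v' x := by
  unfold P
  have h1 : LM (vt A (fun x => v x + v' x) (ix A x)) (A.c (ix A x) x)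
      = fun k l => LM (vt A v (ix A x)) (A.c (ix A x) x) k l
        + LM (vt A v' (ix A x)) (A.c (ix A x) x) k l := by
    funext k l
    exact LM_add (A.c _).open_target (hv _) (hv' _) ((A.c _).map_source (mem_ix A x)) k l
  rw [h1, QQ_add_right, Complex.add_re]

theorem P_zero_off [T2Space X] (B : Bundle A) {v : X → ℝ} {K : Set X} (hK : IsCompact K)
    (h0 : ∀ x ∉ K, v x = 0) (x : X) (hx : x ∉ K) : P B v x = 0 := by
  unfold P
  have hs := mem_ix A x
  set i := ix A x
  have h1 : vt A v i =ᶠ[𝓝 (A.c i x)] fun _ => 0 := by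
    have hz : A.c i x ∈ (A.c i).target := (A.c i).map_source hs
    have h2 : ContinuousAt (A.c i).symm (A.c i x) := (A.c i).continuousAt_symm hz
    have h3 : (A.c i).symm (A.c i x) ∈ Kᶜ := by
      rw [(A.c i).left_inv hs]
      exact hx
    filter_upwards [h2 (hK.isClosed.isOpen_compl.mem_nhds h3)] with y hy
    exact h0 _ hy
  have h2 : ∀ k l, LM (vt A v i) (A.c i x) k l = 0 := by
    intro k l
    rw [LM_congr h1, LM_eq]
    have h3 : pb l (cx (fun _ : E n => (0 : ℝ))) = fun _ => 0 := by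
      funext y
      have h4 : cx (fun _ : E n => (0 : ℝ)) = fun _ => (0 : ℂ) := by
        funext y; simp [cx]
      rw [h4]
      exact d01_const 0
    rw [h3]
    exact d10_const 0
  unfold QQ
  simp [h2]

end Pool.Agent.DTW
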