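import Pool.Agent.DTW.Glo

/-!
Integration on the manifold.
-/

open scoped ContDiff ComplexConjugate Topology
open Complex MeasureTheory

namespace Pool.Agent.DTW

variable {n : ℕ} {X : Type*} [TopologicalSpace X] {ι : Type*}

section bump

variable (A : Atlas n X ι)

theorem smooth_off_compact [T2Space X] {v : X → ℝ} {K : Set X} (hK : IsCompact K)
    (h0 : ∀ x ∉ K, v x = 0) (i : ι) (hKi : K ⊆ (A.c i).source)
    (hv : ContDiffOn ℝ ∞ (vt A v i) (A.c i).target) : Sm A v := by
  intro j z hz
  apply ContDiffAt.contDiffWithinAt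
  by_cases hs : (A.c j).symm z ∈ (A.c i).source
  · have hzU : z ∈ Uo A j i := ⟨hz, hs⟩
    have h1 : vt A v j =ᶠ[𝓝 z] fun y => vt A v i (ph A j i y) := by
      filter_upwards [(isOpen_Uo A j i).mem_nhds hzU] with y hy
      unfold vt
      rw [symm_ph hy]
    refine ContDiffAt.congr_of_eventuallyEq ?_ h1
    have h2 : ContDiffAt ℝ ∞ (vt A v i) (ph A j i z) :=
      hv.contDiffAt ((A.c i).open_target.mem_nhds (ph_mem hzU))
    exact h2.comp z (((contDiffOn_ph A j i).restrict_scalars ℝ).contDiffAt
      ((isOpen_Uo A j i).mem_nhds hzU))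
  · have h1 : vt A v j =ᶠ[𝓝 z] fun _ => 0 := by
      have h2 : ContinuousAt (A.c j).symm z := (A.c j).continuousAt_symm hz
      have h3 : (A.c j).symm z ∈ Kᶜ := fun h => hs (hKi h)
      filter_upwards [h2 (hK.isClosed.isOpen_compl.mem_nhds h3)] with y hy
      exact h0 _ hy
    exact contDiffAt_const.congr_of_eventuallyEq h1

/-- bump functions -/
theorem exists_bump [T2Space X] (x : X) : ∃ (φ : X → ℝ) (K : Set X), Sm A φ ∧ (∀ y, 0 ≤ φ y) ∧
    (∀ᶠ y in 𝓝 x, 0 < φ y) ∧ IsCompact K ∧ K ⊆ (A.c (ix A x)).source ∧ (∀ y ∉ K, φ y = 0) ∧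
    (∀ᶠ y in 𝓝 x, y ∈ K) ∧ ∃ K' ⊆ (A.c (ix A x)).target, IsCompact K' ∧
      K = (A.c (ix A x)).symm '' K' := by
  have hs := mem_ix A x
  set i := ix A x with hi
  set z := A.c i x with hz
  have hzt : z ∈ (A.c i).target := (A.c i).map_source hs
  obtain ⟨r, hr, hball⟩ := Metric.nhds_basis_closedBall.mem_iff.1
    ((A.c i).open_target.mem_nhds hzt)
  let f : ContDiffBump z := ⟨r / 2, r, by positivity, by linarith⟩
  classical
  set φ : X → ℝ := fun y => if y ∈ (A.c i).source then f (A.c i y) else 0 with hφ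
  set K' : Set (E n) := Metric.closedBall z r with hK'
  set K : Set X := (A.c i).symm '' K' with hK
  have hKc : IsCompact K :=
    (isCompact_closedBall z r).image_of_continuousOn ((A.c i).continuousOn_symm.mono hball)
  have hKs : K ⊆ (A.c i).source := by
    rintro y ⟨u, hu, rfl⟩
    exact (A.c i).map_target (hball hu)
  have h0 : ∀ y ∉ K, φ y = 0 := by
    intro y hy
    simp only [hφ]
    split_ifs with h
    · apply f.zero_of_le_dist
      by_contra hlt
      apply hy
      refine ⟨A.c i y, ?_, (A.c i).left_inv h⟩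
      rw [hK', Metric.mem_closedBall]
      exact le_of_lt (not_le.1 hlt)
    · rfl
  have hsm : ContDiffOn ℝ ∞ (vt A φ i) (A.c i).target := by
    refine (f.contDiff (n := ⊤)).contDiffOn.congr fun u hu => ?_
    unfold vt
    simp only [hφ]
    rw [if_pos ((A.c i).map_target hu), (A.c i).right_inv hu]
  have hnear : ∀ᶠ y in 𝓝 x, y ∈ (A.c i).source ∧ A.c i y ∈ Metric.ball z r := by
    filter_upwards [(A.c i).open_source.mem_nhds hs,
      ((A.c i).continuousAt hs) (Metric.ball_mem_nhds z hr)] with y h1 h2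
    exact ⟨h1, h2⟩
  refine ⟨φ, K, smooth_off_compact A hKc h0 i hKs hsm, ?_, ?_, hKc, hKs, h0, ?_, K', hball,
    isCompact_closedBall z r, rfl⟩
  · intro y
    simp only [hφ]
    split_ifs
    · exact f.nonneg
    · exact le_rfl
  · filter_upwards [hnear] with y hy
    simp only [hφ]
    rw [if_pos hy.1]
    exact f.pos_of_mem_ball hy.2
  · filter_upwards [hnear] with y hy
    exact ⟨A.c i y, Metric.ball_subset_closedBall hy.2, (A.c i).left_inv hy.1⟩

end bump

section measure

variable [MeasurableSpace X] [BorelSpace X] {A : Atlas n X ι} {μ : Measure X}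

theorem restrict_eq_map (hμ : A.IsVolume μ) (i : ι) :
    μ.restrict (A.c i).source
      = Measure.map (A.c i).symm ((volume : Measure (E n)).restrict (A.c i).target) := by
  have hae : AEMeasurable (A.c i).symm ((volume : Measure (E n)).restrict (A.c i).target) :=
    (A.c i).continuousOn_symm.aemeasurable (A.c i).open_target.measurableSet
  ext T hT
  rw [Measure.map_apply_of_aemeasurable hae hT, Measure.restrict_apply hT]
  have hm : MeasurableSet ((A.c i).target ∩ (A.c i).symm ⁻¹' T) := by
    have h1 : Measurable ((A.c i).target.domRestrict (A.c i).symm) :=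
      (continuousOn_iff_continuous_domRestrict.1 (A.c i).continuousOn_symm).measurable
    have h2 := (A.c i).open_target.measurableSet.subtype_image (h1 hT)
    have h3 : Subtype.val '' ((A.c i).target.domRestrict (A.c i).symm ⁻¹' T)
        = (A.c i).target ∩ (A.c i).symm ⁻¹' T := by
      ext u
      simp [and_comm]
    rw [h3] at h2
    exact h2
  have h4 : T ∩ (A.c i).source = (A.c i).symm '' ((A.c i).target ∩ (A.c i).symm ⁻¹' T) := by
    ext x
    constructor
    · rintro ⟨h5, h6⟩
      refine ⟨A.c i x, ⟨(A.c i).map_source h6, ?_⟩, (A.c i).left_inv h6⟩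
      simp [(A.c i).left_inv h6, h5]
    · rintro ⟨u, ⟨h5, h6⟩, rfl⟩
      exact ⟨h6, (A.c i).map_target h5⟩
  rw [h4, hμ i _ Set.inter_subset_left hm]
  rw [Measure.restrict_apply' (A.c i).open_target.measurableSet, Set.inter_comm]

theorem volume_compact_image (hμ : A.IsVolume μ) (i : ι) {K' : Set (E n)}
    (hK' : IsCompact K') (hs : K' ⊆ (A.c i).target) : μ ((A.c i).symm '' K') < ⊤ := by
  rw [hμ i _ hs hK'.isClosed.measurableSet]
  exact hK'.measure_lt_top

theorem finite_volume [T2Space X] [CompactSpace X] (hμ : A.IsVolume μ) :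
    IsFiniteMeasure μ := by
  choose φ K h1 h2 h3 h4 h5 h6 h7 K' h8 h9 h10 using exists_bump A
  obtain ⟨t, ht⟩ := CompactSpace.elim_nhds_subcover (fun x => K x) (fun x => h7 x)
  refine ⟨?_⟩
  have h11 : (Set.univ : Set X) ⊆ ⋃ x ∈ t, K x := by
    rw [ht]
    exact le_rfl
  refine lt_of_le_of_lt (measure_mono h11) ?_
  refine lt_of_le_of_lt (measure_biUnion_finset_le t _) ?_
  refine ENNReal.sum_lt_top.2 fun x _ => ?_
  rw [h10 x]
  exact volume_compact_image hμ _ (h9 x) (h8 x)

theorem open_pos (hμ : A.IsVolume μ) : μ.IsOpenPosMeasure := by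
  refine ⟨fun O hO hne => ?_⟩
  obtain ⟨x, hx⟩ := hne
  have hs := mem_ix A x
  set i := ix A x
  set V : Set (E n) := (A.c i).target ∩ (A.c i).symm ⁻¹' O with hV
  have hVo : IsOpen V := (A.c i).symm.isOpen_inter_preimage hO
  have hVn : V.Nonempty := ⟨A.c i x, (A.c i).map_source hs, by
    simp [(A.c i).left_inv hs, hx]⟩
  have h1 : μ ((A.c i).symm '' V) = volume V := hμ i _ Set.inter_subset_left hVo.measurableSet
  have h2 : volume V ≠ 0 := (hVo.measure_pos volume hVn).ne'
  have h3 : (A.c i).symm '' V ⊆ O := by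
    rintro y ⟨u, hu, rfl⟩
    exact hu.2
  intro h4
  apply h2
  rw [← h1]
  exact measure_mono_null h3 h4

theorem integral_chart (hμ : A.IsVolume μ) (i : ι) {h : X → ℝ} (hc : Continuous h)
    (h0 : ∀ x ∉ (A.c i).source, h x = 0) {G : E n → ℝ}
    (hG : ∀ z ∈ (A.c i).target, h ((A.c i).symm z) = G z) (hG0 : ∀ z ∉ (A.c i).target, G z = 0) :
    ∫ x, h x ∂μ = ∫ z, G z := by
  have hae : AEMeasurable (A.c i).symm ((volume : Measure (E n)).restrict (A.c i).target) :=
    (A.c i).continuousOn_symm.aemeasurable (A.c i).open_target.measurableSet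
  rw [← setIntegral_eq_integral_of_forall_compl_eq_zero h0,
    ← setIntegral_eq_integral_of_forall_compl_eq_zero hG0, restrict_eq_map hμ i,
    integral_map hae hc.aestronglyMeasurable]
  exact setIntegral_congr_fun (A.c i).open_target.measurableSet hG

end measure

section main

variable [MeasurableSpace X] [BorelSpace X] [T2Space X] [CompactSpace X] {A : Atlas n X ι}
  {μ : Measure X}

theorem int_P_local (hμ : A.IsVolume μ) (B : Bundle A) {v : X → ℝ} (hv : Sm A v) (i : ι)
    {K : Set X} (hK : IsCompact K) (hKi : K ⊆ (A.c i).source) (h0 : ∀ x ∉ K, v x = 0) :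
    ∫ x, P B v x ∂μ = 0 := by
  classical
  set v' : E n → ℝ := (A.c i).target.indicator (vt A v i) with hv'
  set K' : Set (E n) := A.c i '' K with hK'
  have hK'c : IsCompact K' := hK.image_of_continuousOn ((A.c i).continuousOn.mono hKi)
  have hK't : K' ⊆ (A.c i).target := by
    rintro z ⟨x, hx, rfl⟩
    exact (A.c i).map_source (hKi hx)
  have hzero : ∀ z ∉ K', v' z = 0 := by
    intro z hz
    simp only [hv', Set.indicator]
    split_ifs with h
    · unfold vt
      apply h0
      intro hk
      apply hz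
      exact ⟨_, hk, (A.c i).right_inv h⟩
    · rfl
  have hsm : ContDiffOn ℝ ∞ v' (A.c i).target :=
    (hv i).congr fun z hz => Set.indicator_of_mem hz _
  have hst := stokes (w := B.wt i) (A.c i).open_target hK'c hK't (B.smooth i) hsm hzero
  have hLM : ∀ z ∈ (A.c i).target, LM v' z = LM (vt A v i) z := by
    intro z hz
    funext k l
    refine LM_congr ?_ k l
    filter_upwards [(A.c i).open_target.mem_nhds hz] with y hy
    exact Set.indicator_of_mem hy _
  have hLM0 : ∀ z ∉ K', ∀ k l, LM v' z k l = 0 := by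
    intro z hz k l
    rw [LM_eq]
    exact pk_zero_off hK'c (pb_zero_off hK'c hzero l) k z hz
  have hQ0 : ∀ z ∉ K', QQ (LM (B.wt i) z) (LM v' z) = 0 := by
    intro z hz
    unfold QQ
    simp [hLM0 z hz]
  rw [integral_chart hμ i (continuous_P B hv) (G := fun z => (QQ (LM (B.wt i) z) (LM v' z)).re)]
  · have hcd : ContDiff ℝ ∞ (fun z => QQ (LM (B.wt i) z) (LM v' z)) :=
      contDiff_of_zero (A.c i).open_target hK'c hK't
        (contDiffOn_QQ (A.c i).open_target (B.smooth i) hsm) hQ0
    have hint : Integrable (fun z => QQ (LM (B.wt i) z) (LM v' z)) :=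
      hcd.continuous.integrable_of_hasCompactSupport (hasCompact_of_zero hK'c hQ0)
    have h1 := Complex.reCLM.integral_comp_comm hint
    simp only [Complex.reCLM_apply] at h1
    rw [h1, hst, Complex.zero_re]
  · intro x hx
    exact P_zero_off B hK h0 x fun h => hx (hKi h)
  · intro z hz
    rw [P_eq B hv ((A.c i).map_target hz), (A.c i).right_inv hz, hLM z hz]
  · intro z hz
    rw [hQ0 z fun h => hz (hK't h), Complex.zero_re]

theorem integrable_P (hμ : A.IsVolume μ) (B : Bundle A) {v : X → ℝ} (hv : Sm A v) :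
    Integrable (P B v) μ := by
  have := finite_volume hμ
  exact (continuous_P B hv).integrable_of_hasCompactSupport
    (HasCompactSupport.of_compactSpace _)

/-- the integral of the operator vanishes -/
theorem int_P (hμ : A.IsVolume μ) (B : Bundle A) {v : X → ℝ} (hv : Sm A v) :
    ∫ x, P B v x ∂μ = 0 := by
  classical
  choose φ K h1 h2 h3 h4 h5 h6 h7 K' h8 h9 h10 using exists_bump A
  obtain ⟨t, ht⟩ := CompactSpace.elim_nhds_subcover (fun x => {y | 0 < φ x y}) (fun x => h3 x)
  set Φ : X → ℝ := fun y => ∑ x ∈ t, φ x y with hΦ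
  have hpos : ∀ y, 0 < Φ y := by
    intro y
    have h11 : y ∈ ⋃ x ∈ t, {y | 0 < φ x y} := by rw [ht]; trivial
    simp only [Set.mem_iUnion] at h11
    obtain ⟨x, hx, hy⟩ := h11
    exact Finset.sum_pos' (fun x _ => h2 x y) ⟨x, hx, hy⟩
  have hΦs : Sm A Φ := by
    intro i
    exact ContDiffOn.sum fun x _ => h1 x i
  set u : X → ℝ := fun y => v y * (Φ y)⁻¹ with hu
  have hus : Sm A u := by
    intro i
    refine (hv i).mul ((hΦs i).inv fun z _ => ?_)
    exact (hpos _).ne'
  have key : ∀ s : Finset X, Sm A (fun y => ∑ x ∈ s, φ x y * u y) ∧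
      ∫ y, P B (fun y => ∑ x ∈ s, φ x y * u y) y ∂μ = 0 := by
    intro s
    induction s using Finset.induction_on with
    | empty =>
      constructor
      · intro i
        have : vt A (fun y => ∑ x ∈ (∅ : Finset X), φ x y * u y) i = fun _ => 0 := by
          funext z; simp [vt]
        rw [this]
        exact contDiffOn_const
      · have h12 : ∀ y, P B (fun y => ∑ x ∈ (∅ : Finset X), φ x y * u y) y = 0 := fun y =>
          P_zero_off B isCompact_empty (fun x _ => by simp) y (by simp)
        have h13 : ∫ y, P B (fun y => ∑ x ∈ (∅ : Finset X), φ x y * u y) y ∂μ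
            = ∫ _, (0 : ℝ) ∂μ := integral_congr_ae (Filter.Eventually.of_forall h12)
        rw [h13, integral_zero]
    | insert a s ha ih =>
      have h12 : (fun y => ∑ x ∈ insert a s, φ x y * u y)
          = fun y => φ a y * u y + ∑ x ∈ s, φ x y * u y := by
        funext y
        rw [Finset.sum_insert ha]
      have h13 : Sm A (fun y => φ a y * u y) := (h1 a).mul hus
      rw [h12]
      refine ⟨h13.add ih.1, ?_⟩
      have h14 : ∀ y, P B (fun y => φ a y * u y + ∑ x ∈ s, φ x y * u y) y
          = P B (fun y => φ a y * u y) y + P B (fun y => ∑ x ∈ s, φ x y * u y) y :=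
        fun y => P_add B h13 ih.1 y
      simp only [h14]
      rw [integral_add (integrable_P hμ B h13) (integrable_P hμ B ih.1), ih.2, add_zero]
      refine int_P_local hμ B h13 (ix A a) (h4 a) (h5 a) fun x hx => ?_
      rw [h6 a x hx, zero_mul]
  have h15 : (fun y => ∑ x ∈ t, φ x y * u y) = v := by
    funext y
    rw [← Finset.sum_mul]
    have h16 : Φ y ≠ 0 := (hpos y).ne'
    have h17 : ∑ x ∈ t, φ x y = Φ y := rfl
    rw [h17, hu]
    field_simp
  have h18 := (key t).2
  rw [h15] at h18
  exact h18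

/-- a nonnegative continuous function with integral zero vanishes -/
theorem zero_of_integral (hμ : A.IsVolume μ) {h : X → ℝ} (hc : Continuous h)
    (hp : ∀ x, 0 ≤ h x) (hi : ∫ x, h x ∂μ = 0) (x : X) : h x = 0 := by
  have := finite_volume hμ
  have := open_pos hμ
  have hint : Integrable h μ :=
    hc.integrable_of_hasCompactSupport (HasCompactSupport.of_compactSpace _)
  have h1 : h =ᵐ[μ] 0 := (integral_eq_zero_iff_of_nonneg hp hint).1 hi
  have h2 : h = 0 := hc.ae_eq_iff_eq μ continuous_zero |>.1 h1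
  rw [h2]
  rfl

end main

end Pool.Agent.DTW
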