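import Pool.Agent.DTW.Alg

/-!
The main identity.
-/

open scoped ContDiff ComplexConjugate Topology
open Complex

namespace Pool.Agent.DTW

variable {n : ℕ}

/-- covariant derivative in direction `k` -/
noncomputable def DD (m : ℝ) (w : E n → ℝ) (k : Ix n) (f : E n → ℂ) (z : E n) : ℂ :=
  pk k f z - m * pk k (cx w) z * f z

/-- the length function of a section -/
noncomputable def uu (m : ℝ) (w : E n → ℝ) (f : E n → ℂ) (z : E n) : ℝ :=
  ‖f z‖ ^ 2 * Real.exp (-(m * w z))

theorem cx_uu (m : ℝ) (w : E n → ℝ) (f : E n → ℂ) (z : E n) :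
    cx (uu m w f) z = f z * conj (f z) * cexp (-(m : ℂ) * cx w z) := by
  unfold cx uu
  rw [Complex.mul_conj, Complex.normSq_eq_norm_sq]
  push_cast
  ring_nf

section

variable {U : Set (E n)} {w : E n → ℝ} {f : E n → ℂ} {m : ℝ}

theorem pb_cx_uu (hU : IsOpen U) (hw : ContDiffOn ℝ ∞ w U) (hf : ContDiffOn ℝ ∞ f U)
    {z : E n} (hz : z ∈ U) (j : Ix n) :
    pb j (cx (uu m w f)) z = cexp (-(m : ℂ) * cx w z)
      * (pb j f z * conj (f z) + f z * conj (DD m w j f z)) := by
  have hW := contDiffOn_cx hw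
  have dW := diffAt_of hU hW hz
  have df := diffAt_of hU hf hz
  have h0 : cx (uu m w f) = fun y => f y * conj (f y) * cexp (-(m : ℂ) * cx w y) :=
    funext fun y => cx_uu m w f y
  have dcf : DifferentiableAt ℝ (fun y => conj (f y)) z :=
    (Complex.conjCLE.differentiableAt).comp z df
  have dmW : DifferentiableAt ℝ (fun y => -(m : ℂ) * cx w y) z := dW.const_mul _
  have dexp : DifferentiableAt ℝ (fun y => cexp (-(m : ℂ) * cx w y)) z := dmW.cexp
  have dfm : DifferentiableAt ℝ (fun y => f y * conj (f y)) z := df.mul dcf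
  have h1 : pb j (cx (uu m w f)) z
      = (d01 f z (e j) * conj (f z) + f z * d01 (fun y => conj (f y)) z (e j))
          * cexp (-(m : ℂ) * cx w z)
        + f z * conj (f z) * (cexp (-(m : ℂ) * cx w z) * (-(m : ℂ) * d01 (cx w) z (e j))) := by
    unfold pb
    rw [h0, d01_mul dfm dexp, d01_mul df dcf, d01_exp dmW, d01_const_mul dW]
  rw [h1, d01_conj df]
  unfold DD
  rw [pk_cx dW]
  simp only [map_sub, map_mul, Complex.conj_conj, Complex.conj_ofReal]
  unfold pb pk
  ring

theorem contDiffOn_DD (hU : IsOpen U) (hw : ContDiffOn ℝ ∞ w U) (hf : ContDiffOn ℝ ∞ f U)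
    (k : Ix n) : ContDiffOn ℝ ∞ (DD m w k f) U := by
  have hW := contDiffOn_cx hw
  exact (contDiffOn_pk hU hf k).sub ((contDiffOn_const.mul (contDiffOn_pk hU hW k)).mul hf)

theorem pk_mul_at {f g : E n → ℂ} {z : E n} (hf : DifferentiableAt ℝ f z)
    (hg : DifferentiableAt ℝ g z) (k : Ix n) :
    pk k (fun y => f y * g y) z = pk k f z * g z + f z * pk k g z := d10_mul hf hg

theorem pb_mul_at {f g : E n → ℂ} {z : E n} (hf : DifferentiableAt ℝ f z)
    (hg : DifferentiableAt ℝ g z) (k : Ix n) :
    pb k (fun y => f y * g y) z = pb k f z * g z + f z * pb k g z := d01_mul hf hg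

theorem d01_sub' {f g : E n → ℂ} {z a : E n} (hf : DifferentiableAt ℝ f z)
    (hg : DifferentiableAt ℝ g z) :
    d01 (fun y => f y - g y) z a = d01 f z a - d01 g z a := by
  unfold d01
  rw [fderiv_fun_sub hf hg]
  simp only [sub_apply]
  ring

theorem LM_uu (hU : IsOpen U) (hw : ContDiffOn ℝ ∞ w U) (hf : ContDiffOn ℝ ∞ f U)
    {z : E n} (hz : z ∈ U) (i j : Ix n) :
    LM (uu m w f) z i j = cexp (-(m : ℂ) * cx w z) *
      ((pk i (pb j f) z - m * pk i (cx w) z * pb j f z) * conj (f z)
        + pb j f z * conj (pb i f z)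
        + DD m w i f z * conj (DD m w j f z)
        + f z * conj (pk j (pb i f) z - m * pk j (cx w) z * pb i f z)
        - m * LM w z i j * (f z * conj (f z))) := by
  have hW := contDiffOn_cx hw
  have dW := diffAt_of hU hW hz
  have df := diffAt_of hU hf hz
  have dpb : ∀ k, DifferentiableAt ℝ (pb k f) z := fun k =>
    diffAt_of hU (contDiffOn_pb hU hf k) hz
  have dpk : ∀ k, DifferentiableAt ℝ (pk k f) z := fun k =>
    diffAt_of hU (contDiffOn_pk hU hf k) hz
  have dpkW : ∀ k, DifferentiableAt ℝ (pk k (cx w)) z := fun k =>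
    diffAt_of hU (contDiffOn_pk hU hW k) hz
  have dDD : ∀ k, DifferentiableAt ℝ (DD m w k f) z := fun k =>
    diffAt_of hU (contDiffOn_DD hU hw hf k) hz
  have conjd : ∀ g : E n → ℂ, DifferentiableAt ℝ g z →
      DifferentiableAt ℝ (fun y => conj (g y)) z := fun g hg =>
    (Complex.conjCLE.differentiableAt).comp z hg
  have dmW : DifferentiableAt ℝ (fun y => -(m : ℂ) * cx w y) z := dW.const_mul _
  have dexp : DifferentiableAt ℝ (fun y => cexp (-(m : ℂ) * cx w y)) z := dmW.cexp
  have h1 : pb j (cx (uu m w f)) =ᶠ[𝓝 z] fun y => cexp (-(m : ℂ) * cx w y)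
      * (pb j f y * conj (f y) + f y * conj (DD m w j f y)) := by
    filter_upwards [hU.mem_nhds hz] with y hy
    exact pb_cx_uu hU hw hf hy j
  have d1 : DifferentiableAt ℝ (fun y => pb j f y * conj (f y)) z := (dpb j).mul (conjd f df)
  have d2 : DifferentiableAt ℝ (fun y => f y * conj (DD m w j f y)) z :=
    df.mul (conjd _ (dDD j))
  have d12 : DifferentiableAt ℝ (fun y => pb j f y * conj (f y) + f y * conj (DD m w j f y)) z :=
    d1.add d2
  rw [LM_eq, pk_congr h1, pk_mul_at dexp d12]
  have h2 : pk i (fun y => cexp (-(m : ℂ) * cx w y)) z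
      = cexp (-(m : ℂ) * cx w z) * (-(m : ℂ) * pk i (cx w) z) := by
    unfold pk
    rw [d10_exp dmW, d10_const_mul dW]
  have h3 : pk i (fun y => pb j f y * conj (f y) + f y * conj (DD m w j f y)) z
      = pk i (pb j f) z * conj (f z) + pb j f z * conj (pb i f z)
        + (pk i f z * conj (DD m w j f z) + f z * conj (pb i (DD m w j f) z)) := by
    have h4 : pk i (fun y => conj (f y)) z = conj (pb i f z) := d10_conj df
    have h5 : pk i (fun y => conj (DD m w j f y)) z = conj (pb i (DD m w j f) z) :=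
      d10_conj (dDD j)
    have h6 : pk i (fun y => pb j f y * conj (f y) + f y * conj (DD m w j f y)) z
        = pk i (fun y => pb j f y * conj (f y)) z + pk i (fun y => f y * conj (DD m w j f y)) z :=
      d10_add d1 d2
    rw [h6, pk_mul_at (dpb j) (conjd f df), pk_mul_at df (conjd _ (dDD j)), h4, h5]
  have h7 : pb i (DD m w j f) z = pk j (pb i f) z
      - (m * (LM w z j i) * f z + m * pk j (cx w) z * pb i f z) := by
    have d3 : DifferentiableAt ℝ (fun y => (m : ℂ) * pk j (cx w) y) z := (dpkW j).const_mul _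
    have h8 : pb i (DD m w j f) z = pb i (pk j f) z
        - pb i (fun y => (m : ℂ) * pk j (cx w) y * f y) z := d01_sub' (dpk j) (d3.mul df)
    have h9 : pb i (fun y => (m : ℂ) * pk j (cx w) y) z = m * pb i (pk j (cx w)) z :=
      d01_const_mul (dpkW j) _
    rw [h8, pb_mul_at d3 df, h9, ← pk_pb_comm (hf.contDiffAt (hU.mem_nhds hz)),
      ← pk_pb_comm (hW.contDiffAt (hU.mem_nhds hz)), ← LM_eq]
  have h10 : conj (LM w z j i) = LM w z i j := LM_conj hU hw hz j i
  rw [h2, h3, h7]
  simp only [map_sub, map_add, map_mul, Complex.conj_ofReal, h10]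
  unfold DD
  ring

theorem iso_conj {F : Ix n → Ix n → ℂ} (hh : ∀ k l, conj (F k l) = F l k) (h : Iso F)
    (l p : Ix n) : ∑ j : Ix n, sg j * F l j.swap * F p j = 0 := by
  have h1 := congrArg (starRingEnd ℂ) (h l p)
  simp only [map_sum, map_mul, conj_sg, hh, map_zero] at h1
  exact h1

theorem QQ_self_of_iso {F : Ix n → Ix n → ℂ} (h : Iso F) : QQ F F = 0 := by
  unfold QQ
  rw [Finset.sum_comm]
  refine Finset.sum_eq_zero fun l _ => ?_
  have h1 : ∑ k : Ix n, sg k * sg l * F k.swap l.swap * F k l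
      = sg l * ∑ k : Ix n, sg k * F k.swap l.swap * F k l := by
    rw [Finset.mul_sum]
    refine Finset.sum_congr rfl fun k _ => ?_
    ring
  rw [h1, h, mul_zero]

/-- closedness -/
theorem LM_closed (hU : IsOpen U) (hw : ContDiffOn ℝ ∞ w U) {z : E n} (hz : z ∈ U)
    (i p j : Ix n) :
    pk i (fun y => LM w y p j) z = pk p (fun y => LM w y i j) z := by
  have hW := contDiffOn_cx hw
  exact pk_pk_comm ((contDiffOn_pb hU hW j).contDiffAt (hU.mem_nhds hz)) i p

theorem diffLM (hU : IsOpen U) (hw : ContDiffOn ℝ ∞ w U) {z : E n} (hz : z ∈ U) (k l : Ix n) :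
    DifferentiableAt ℝ (fun y => LM w y k l) z :=
  diffAt_of hU (contDiffOn_pk hU (contDiffOn_pb hU (contDiffOn_cx hw) l) k) hz

/-- derivative of the isotropy relation, contracted -/
theorem iso_deriv (hU : IsOpen U) (hw : ContDiffOn ℝ ∞ w U) (hiso : ∀ z ∈ U, Iso (LM w z))
    {z : E n} (hz : z ∈ U) (p : Ix n) :
    ∑ j : Ix n, sg j * ∑ i : Ix n, sg i * LM w z i.swap j.swap
      * pk p (fun y => LM w y i j) z = 0 := by
  set Em : Ix n → Ix n → ℂ := fun l j =>
    ∑ i : Ix n, sg i * LM w z i.swap l * pk p (fun y => LM w y i j) z with hE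
  have hsym : ∀ l j, Em l j = Em j l := by
    intro l j
    have h1 : (fun y => ∑ i : Ix n, sg i * LM w y i.swap l * LM w y i j) =ᶠ[𝓝 z] fun _ => 0 := by
      filter_upwards [hU.mem_nhds hz] with y hy
      exact hiso y hy l j
    have h2 : d10 (fun y => ∑ i : Ix n, sg i * LM w y i.swap l * LM w y i j) z (e p) = 0 := by
      rw [d10_congr h1, d10_const]
    have dd : ∀ k l', DifferentiableAt ℝ (fun y => LM w y k l') z := fun k l' =>
      diffLM hU hw hz k l'
    have h3 := d10_sum (z := z) (a := e p) Finset.univ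
      (fun (i : Ix n) y => sg i * LM w y i.swap l * LM w y i j)
      (fun i _ => ((dd _ _).const_mul _).mul (dd _ _))
    rw [h3] at h2
    have h4 : ∀ i : Ix n, d10 (fun y => sg i * LM w y i.swap l * LM w y i j) z (e p)
        = sg i * LM w z i j * pk p (fun y => LM w y i.swap l) z
          + sg i * LM w z i.swap l * pk p (fun y => LM w y i j) z := by
      intro i
      rw [d10_mul ((dd _ _).const_mul _) (dd _ _), d10_const_mul (dd _ _)]
      unfold pk
      ring
    simp only [h4, Finset.sum_add_distrib] at h2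
    have h5 : ∑ i : Ix n, sg i * LM w z i j * pk p (fun y => LM w y i.swap l) z = -Em j l := by
      rw [hE, ← sum_swap, ← Finset.sum_neg_distrib]
      refine Finset.sum_congr rfl fun i _ => ?_
      rw [sg_swap, Sum.swap_swap]
      ring
    rw [h5] at h2
    linear_combination h2
  have h6 : ∑ j : Ix n, sg j * Em j.swap j = -∑ j : Ix n, sg j * Em j.swap j := by
    conv_lhs => rw [← sum_swap]
    rw [← Finset.sum_neg_distrib]
    refine Finset.sum_congr rfl fun j _ => ?_
    rw [sg_swap, Sum.swap_swap, hsym]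
    ring
  have h7 : ∑ j : Ix n, sg j * Em j.swap j = 0 := by
    linear_combination h6 / 2
  exact h7

/-- The main identity. -/
theorem key (hU : IsOpen U) (hw : ContDiffOn ℝ ∞ w U) (hf : ContDiffOn ℝ ∞ f U)
    (hiso : ∀ z ∈ U, Iso (LM w z)) (t : ℂ)
    (hol : ∀ z ∈ U, ∀ j, pb j f z = -t * ∑ k : Ix n, sg k * LM w z k.swap j * DD m w k f z)
    {z : E n} (hz : z ∈ U) :
    QQ (LM w z) (LM (uu m w f) z) = cexp (-(m : ℂ) * cx w z) *
      ∑ i : Ix n, ∑ j : Ix n, LM w z i.swap j.swap * (sg i * DD m w i f z)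
        * conj (sg j * DD m w j f z) := by
  have hW := contDiffOn_cx hw
  have hh : ∀ k l, conj (LM w z k l) = LM w z l k := fun k l => LM_conj hU hw hz k l
  have hI := hiso z hz
  have hIc := iso_conj hh hI
  -- vanishing of the contraction of `∂̄f`
  have hA : ∀ i : Ix n, ∑ j : Ix n, sg j * LM w z i j.swap * pb j f z = 0 := by
    intro i
    have h1 : ∑ j : Ix n, sg j * LM w z i j.swap * pb j f z
        = ∑ k : Ix n, (-t * sg k * DD m w k f z)
          * ∑ j : Ix n, sg j * LM w z i j.swap * LM w z k.swap j := by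
      simp only [Finset.mul_sum]
      rw [Finset.sum_comm]
      refine Finset.sum_congr rfl fun j _ => ?_
      rw [hol z hz, Finset.mul_sum, Finset.mul_sum]
      refine Finset.sum_congr rfl fun k _ => ?_
      ring
    rw [h1]
    simp [hIc]
  have dd : ∀ k l, DifferentiableAt ℝ (fun y => LM w y k l) z := fun k l => diffLM hU hw hz k l
  have dDD : ∀ k, DifferentiableAt ℝ (DD m w k f) z := fun k =>
    diffAt_of hU (contDiffOn_DD hU hw hf k) hz
  have hpk : ∀ i j : Ix n, pk i (pb j f) z = -t * ∑ k : Ix n, (sg k *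
      pk k.swap (fun y => LM w y i j) z * DD m w k f z
      + sg k * LM w z k.swap j * pk i (DD m w k f) z) := by
    intro i j
    have h1 : pb j f =ᶠ[𝓝 z] fun y => -t * ∑ k : Ix n, sg k * LM w y k.swap j * DD m w k f y := by
      filter_upwards [hU.mem_nhds hz] with y hy
      exact hol y hy j
    have d3 : ∀ k : Ix n, DifferentiableAt ℝ (fun y => sg k * LM w y k.swap j * DD m w k f y) z :=
      fun k => ((dd _ _).const_mul _).mul (dDD k)
    have d4 : DifferentiableAt ℝ (fun y => ∑ k : Ix n, sg k * LM w y k.swap j * DD m w k f y) z :=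
      DifferentiableAt.fun_sum fun k _ => d3 k
    have h2 : pk i (fun y => -t * ∑ k : Ix n, sg k * LM w y k.swap j * DD m w k f y) z
        = -t * pk i (fun y => ∑ k : Ix n, sg k * LM w y k.swap j * DD m w k f y) z :=
      d10_const_mul d4 _
    have h3 : pk i (fun y => ∑ k : Ix n, sg k * LM w y k.swap j * DD m w k f y) z
        = ∑ k : Ix n, pk i (fun y => sg k * LM w y k.swap j * DD m w k f y) z :=
      d10_sum (z := z) (a := e i) Finset.univ
        (fun (k : Ix n) y => sg k * LM w y k.swap j * DD m w k f y) (fun k _ => d3 k)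
    rw [pk_congr h1, h2, h3]
    congr 1
    refine Finset.sum_congr rfl fun k _ => ?_
    have d5 : DifferentiableAt ℝ (fun y => sg k * LM w y k.swap j) z := (dd _ _).const_mul _
    have h4 : pk i (fun y => sg k * LM w y k.swap j) z
        = sg k * pk i (fun y => LM w y k.swap j) z := d10_const_mul (dd _ _) _
    rw [pk_mul_at d5 (dDD k), h4, LM_closed hU hw hz i k.swap j]
  have hB : ∑ i : Ix n, ∑ j : Ix n, sg i * sg j * LM w z i.swap j.swap
      * (pk i (pb j f) z - m * pk i (cx w) z * pb j f z) = 0 := by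
    have h1 : ∀ i j : Ix n, sg i * sg j * LM w z i.swap j.swap
        * (pk i (pb j f) z - m * pk i (cx w) z * pb j f z)
        = (∑ k : Ix n, (-t * sg k * DD m w k f z) * (sg j * (sg i * LM w z i.swap j.swap
              * pk k.swap (fun y => LM w y i j) z)))
          + (∑ k : Ix n, (-t * sg i * sg k * pk i (DD m w k f) z)
              * (sg j * LM w z i.swap j.swap * LM w z k.swap j))
          - m * sg i * pk i (cx w) z * (sg j * LM w z i.swap j.swap * pb j f z) := by
      intro i j
      rw [hpk i j, mul_sub, Finset.mul_sum, Finset.mul_sum, ← Finset.sum_add_distrib]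
      congr 1
      · refine Finset.sum_congr rfl fun k _ => ?_
        ring
      · ring
    simp only [h1, Finset.sum_add_distrib, Finset.sum_sub_distrib]
    have s1 : ∑ i : Ix n, ∑ j : Ix n, ∑ k : Ix n, (-t * sg k * DD m w k f z)
        * (sg j * (sg i * LM w z i.swap j.swap * pk k.swap (fun y => LM w y i j) z)) = 0 := by
      have h2 : ∑ i : Ix n, ∑ j : Ix n, ∑ k : Ix n, (-t * sg k * DD m w k f z)
          * (sg j * (sg i * LM w z i.swap j.swap * pk k.swap (fun y => LM w y i j) z))
          = ∑ k : Ix n, (-t * sg k * DD m w k f z) * ∑ j : Ix n, sg j * ∑ i : Ix n,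
            sg i * LM w z i.swap j.swap * pk k.swap (fun y => LM w y i j) z := by
        simp only [Finset.mul_sum]
        rw [Finset.sum_comm]
        have h3 : ∀ j : Ix n, ∑ i : Ix n, ∑ k : Ix n, (-t * sg k * DD m w k f z)
          * (sg j * (sg i * LM w z i.swap j.swap * pk k.swap (fun y => LM w y i j) z))
          = ∑ k : Ix n, ∑ i : Ix n, (-t * sg k * DD m w k f z)
          * (sg j * (sg i * LM w z i.swap j.swap * pk k.swap (fun y => LM w y i j) z)) :=
          fun j => Finset.sum_comm
        simp only [h3]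
        rw [Finset.sum_comm]
      rw [h2]
      refine Finset.sum_eq_zero fun k _ => ?_
      rw [iso_deriv hU hw hiso hz k.swap, mul_zero]
    have s2 : ∑ i : Ix n, ∑ j : Ix n, ∑ k : Ix n, (-t * sg i * sg k * pk i (DD m w k f) z)
        * (sg j * LM w z i.swap j.swap * LM w z k.swap j) = 0 := by
      refine Finset.sum_eq_zero fun i _ => ?_
      rw [Finset.sum_comm]
      refine Finset.sum_eq_zero fun k _ => ?_
      rw [← Finset.mul_sum, hIc, mul_zero]
    have s3 : ∑ i : Ix n, ∑ j : Ix n, m * sg i * pk i (cx w) z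
        * (sg j * LM w z i.swap j.swap * pb j f z) = 0 := by
      refine Finset.sum_eq_zero fun i _ => ?_
      rw [← Finset.mul_sum, hA, mul_zero]
    rw [s1, s2, s3]
    simp
  have hBc : ∑ i : Ix n, ∑ j : Ix n, sg i * sg j * LM w z i.swap j.swap
      * conj (pk j (pb i f) z - m * pk j (cx w) z * pb i f z) = 0 := by
    have h1 := congrArg (starRingEnd ℂ) hB
    rw [map_zero, Finset.sum_comm] at h1
    rw [← h1, map_sum]
    refine Finset.sum_congr rfl fun i _ => ?_
    rw [map_sum]
    refine Finset.sum_congr rfl fun j _ => ?_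
    rw [map_mul, map_mul, map_mul, conj_sg, conj_sg, hh]
    ring
  have hC : ∑ i : Ix n, ∑ j : Ix n, sg i * sg j * LM w z i.swap j.swap
      * (pb j f z * conj (pb i f z)) = 0 := by
    refine Finset.sum_eq_zero fun i _ => ?_
    have h1 : ∑ j : Ix n, sg i * sg j * LM w z i.swap j.swap * (pb j f z * conj (pb i f z))
        = sg i * conj (pb i f z) * ∑ j : Ix n, sg j * LM w z i.swap j.swap * pb j f z := by
      rw [Finset.mul_sum]
      refine Finset.sum_congr rfl fun j _ => ?_
      ring
    rw [h1, hA, mul_zero]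
  have hD : ∑ i : Ix n, ∑ j : Ix n, sg i * sg j * LM w z i.swap j.swap * LM w z i j = 0 :=
    QQ_self_of_iso hI
  unfold QQ
  have hfin : ∀ i j : Ix n, sg i * sg j * LM w z i.swap j.swap * LM (uu m w f) z i j
      = cexp (-(m : ℂ) * cx w z) * (
        conj (f z) * (sg i * sg j * LM w z i.swap j.swap
          * (pk i (pb j f) z - m * pk i (cx w) z * pb j f z))
        + sg i * sg j * LM w z i.swap j.swap * (pb j f z * conj (pb i f z))
        + LM w z i.swap j.swap * (sg i * DD m w i f z) * conj (sg j * DD m w j f z)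
        + f z * (sg i * sg j * LM w z i.swap j.swap
          * conj (pk j (pb i f) z - m * pk j (cx w) z * pb i f z))
        - m * (f z * conj (f z)) * (sg i * sg j * LM w z i.swap j.swap * LM w z i j)) := by
    intro i j
    rw [LM_uu hU hw hf hz, map_mul (starRingEnd ℂ) (sg j), conj_sg]
    ring
  simp only [hfin, ← Finset.mul_sum, Finset.sum_add_distrib, Finset.sum_sub_distrib]
  rw [hB, hBc, hC, hD]
  ring

end

end Pool.Agent.DTW
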