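import Pool.Agent.DTW.Vol
import Pool.Agent.DTW.Key

/-!
Assembly.
-/

open scoped ContDiff ComplexConjugate Topology
open Complex MeasureTheory

namespace Pool.Agent.DTW

variable {n : ℕ}

theorem psd_of_levi {w : E n → ℝ} {U : Set (E n)} (hU : IsOpen U) (hw : ContDiffOn ℝ ∞ w U)
    {z : E n} (hz : z ∈ U) (hp : ∀ a : E n, 0 ≤ (levi w z a a).re) : Psd (LM w z) := by
  refine ⟨fun k l => LM_conj hU hw hz k l, fun a => ?_⟩
  rw [← levi_eq_sum (hw.contDiffAt (hU.mem_nhds hz))]
  exact hp a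

/-- the (1,0) part of a vector of type (0,1) -/
noncomputable def XX (w : E n → ℝ) (z b : E n) : E n :=
  fun k => sg k * ∑ j : Ix n, LM w z k.swap j * conj (b j)

theorem S_XX {w : E n → ℝ} {z : E n} (hw : ContDiffAt ℝ ∞ w z) (t : ℂ) (b a' : E n) :
    S (t • XX w z b) a' = t * levi w z a' b := by
  rw [S_eq, levi_eq_sum hw, Finset.mul_sum]
  have h1 : ∀ k : Ix n, sg k * (t • XX w z b) k * a' k.swap
      = (fun k : Ix n => t * ∑ j : Ix n, a' k * conj (b j) * LM w z k j) k.swap := by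
    intro k
    simp only [Pi.smul_apply, smul_eq_mul, XX, Finset.mul_sum, Finset.sum_mul]
    refine Finset.sum_congr rfl fun j _ => ?_
    have h2 := sg_sq k
    linear_combination (t * LM w z k.swap j * conj (b j) * a' k.swap) * h2
  simp only [h1]
  exact sum_swap (fun k : Ix n => t * ∑ j : Ix n, a' k * conj (b j) * LM w z k j)

theorem levi_XX {w : E n → ℝ} {z : E n} (hw : ContDiffAt ℝ ∞ w z) (hI : Iso (LM w z)) (t : ℂ)
    (b b' : E n) : levi w z (t • XX w z b) b' = 0 := by
  rw [levi_eq_sum hw, Finset.sum_comm]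
  refine Finset.sum_eq_zero fun l _ => ?_
  have h1 : ∑ k : Ix n, (t • XX w z b) k * conj (b' l) * LM w z k l
      = ∑ j : Ix n, (t * conj (b' l) * conj (b j))
        * ∑ k : Ix n, sg k * LM w z k.swap j * LM w z k l := by
    simp only [Pi.smul_apply, smul_eq_mul, XX, Finset.mul_sum, Finset.sum_mul]
    rw [Finset.sum_comm]
    refine Finset.sum_congr rfl fun j _ => Finset.sum_congr rfl fun k _ => ?_
    ring
  rw [h1]
  exact Finset.sum_eq_zero fun j _ => by rw [hI, mul_zero]

theorem zo_of_eq {w : E n → ℝ} {z : E n} (hw : ContDiffAt ℝ ∞ w z) (hI : Iso (LM w z)) (t : ℂ)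
    (b : E n) : IsZeroOne t w z (t • XX w z b) b := by
  intro a' b'
  rw [S_XX hw, levi_XX hw hI]
  ring

theorem levi_zero_right {w : E n → ℝ} {z : E n} (hw : ContDiffAt ℝ ∞ w z) (a : E n) :
    levi w z a 0 = 0 := by
  rw [levi_eq_sum hw]
  simp

theorem eq_of_zo {w : E n → ℝ} {z : E n} (hw : ContDiffAt ℝ ∞ w z) (t : ℂ)
    {a b : E n} (h : IsZeroOne t w z a b) : a = t • XX w z b := by
  have h1 : ∀ a', S a a' = S (t • XX w z b) a' := by
    intro a'
    have h2 := h a' 0
    rw [levi_zero_right hw] at h2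
    rw [S_XX hw]
    linear_combination h2
  funext k
  have h3 := h1 (e k.swap)
  rw [S_single, S_single, Sum.swap_swap, sg_swap, neg_neg] at h3
  have h4 : sg k ≠ 0 := by
    intro h0
    have := sg_sq k
    rw [h0] at this
    simp at this
  exact mul_left_cancel₀ h4 h3

theorem zo_iff {w : E n → ℝ} {z : E n} (hw : ContDiffAt ℝ ∞ w z) (hI : Iso (LM w z)) (t : ℂ)
    (a b : E n) : IsZeroOne t w z a b ↔ a = t • XX w z b :=
  ⟨eq_of_zo hw t, fun h => h ▸ zo_of_eq hw hI t b⟩

theorem XX_add (w : E n → ℝ) (z b b' : E n) : XX w z (b + b') = XX w z b + XX w z b' := by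
  funext k
  simp only [XX, Pi.add_apply, map_add, mul_add, Finset.sum_add_distrib]

theorem XX_sub (w : E n → ℝ) (z b b' : E n) : XX w z (b - b') = XX w z b - XX w z b' := by
  funext k
  simp only [XX, Pi.sub_apply, map_sub, mul_sub, Finset.sum_sub_distrib]

theorem XX_smul_XX {w : E n → ℝ} {z : E n} (hh : ∀ k l, conj (LM w z k l) = LM w z l k)
    (hI : Iso (LM w z)) (t : ℂ) (b : E n) : XX w z (t • XX w z b) = 0 := by
  have hIc := iso_conj hh hI
  funext k
  have h1 : XX w z (t • XX w z b) k = sg k * ∑ l : Ix n, (conj t * b l)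
      * ∑ j : Ix n, sg j * LM w z l j.swap * LM w z k.swap j := by
    unfold XX
    congr 1
    simp only [Pi.smul_apply, smul_eq_mul, map_mul, map_sum, conj_sg, Complex.conj_conj, hh,
      Finset.mul_sum]
    rw [Finset.sum_comm]
    refine Finset.sum_congr rfl fun l _ => Finset.sum_congr rfl fun j _ => ?_
    ring
  rw [h1]
  simp [hIc]

/-- the vectors of type (0,1) and their conjugates are complementary -/
theorem complementary {w : E n → ℝ} {z : E n} (hw : ContDiffAt ℝ ∞ w z)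
    (hh : ∀ k l, conj (LM w z k l) = LM w z l k) (hI : Iso (LM w z)) (t : ℂ) (p q : E n) :
    ∃! r : (E n × E n) × (E n × E n), IsZeroOne t w z r.1.1 r.1.2 ∧
      IsZeroOne t w z r.2.1 r.2.2 ∧ r.1.1 + r.2.2 = p ∧ r.1.2 + r.2.1 = q := by
  have hX2 := XX_smul_XX hh hI t
  refine ⟨((t • XX w z (q - t • XX w z p), q - t • XX w z p),
    (t • XX w z (p - t • XX w z q), p - t • XX w z q)), ⟨zo_of_eq hw hI t _, zo_of_eq hw hI t _,
    ?_, ?_⟩, ?_⟩
  · simp only
    rw [XX_sub, hX2, sub_zero]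
    abel
  · simp only
    rw [XX_sub, hX2, sub_zero]
    abel
  · rintro ⟨⟨a, b⟩, ⟨a', b'⟩⟩ ⟨h1, h2, h3, h4⟩
    simp only at h1 h2 h3 h4
    have e1 := eq_of_zo hw t h1
    have e2 := eq_of_zo hw t h2
    have hXb : XX w z p = XX w z b' := by
      rw [← h3, XX_add, e1, hX2, zero_add]
    have hXq : XX w z q = XX w z b := by
      rw [← h4, XX_add, e2, hX2, add_zero]
    have hb : b = q - t • XX w z p := by
      rw [← h4, hXb, e2]
      abel
    have hb' : b' = p - t • XX w z q := by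
      rw [← h3, hXq, e1]
      abel
    have ha : a = t • XX w z (q - t • XX w z p) := by rw [← hb]; exact e1
    have ha' : a' = t • XX w z (p - t • XX w z q) := by rw [← hb']; exact e2
    rw [Prod.mk.injEq, Prod.mk.injEq, Prod.mk.injEq]
    exact ⟨⟨ha, hb⟩, ⟨ha', hb'⟩⟩

section global

variable {X : Type*} [TopologicalSpace X] {ι : Type*} {A : Atlas n X ι}

/-- section in the coordinates of a chart -/
noncomputable def st (A : Atlas n X ι) (s : ι → X → ℂ) (i : ι) : E n → ℂ := s i ∘ (A.c i).symm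

/-- length function of a section -/
noncomputable def len (B : Bundle A) (m : ℤ) (s : ι → X → ℂ) (x : X) : ℝ :=
  ‖s (ix A x) x‖ ^ 2 * Real.exp (-((m : ℝ) * B.w (ix A x) x))

theorem len_chart {B : Bundle A} {m : ℤ} {s : ι → X → ℂ} (hs : B.IsSection m s) {i : ι} {x : X}
    (hi : x ∈ (A.c i).source) : len B m s x = ‖s i x‖ ^ 2 * Real.exp (-((m : ℝ) * B.w i x)) := by
  unfold len
  have hj := mem_ix A x
  set j := ix A x
  have hg : B.g j i x ≠ 0 := B.ne j i x hj hi
  have hgp : 0 < ‖B.g j i x‖ := norm_pos_iff.2 hg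
  rw [hs.trans j i x hj hi, B.trans j i x hj hi, norm_mul, norm_zpow, mul_pow]
  have h1 : (‖B.g j i x‖ ^ m) ^ 2 = Real.exp (2 * m * Real.log ‖B.g j i x‖) := by
    have h2 : ‖B.g j i x‖ ^ m = Real.exp (Real.log ‖B.g j i x‖ * m) := by
      rw [← Real.rpow_intCast, Real.rpow_def_of_pos hgp]
    rw [h2, sq, ← Real.exp_add]
    congr 1
    ring
  rw [h1]
  have h3 : Real.exp (2 * m * Real.log ‖B.g j i x‖) * ‖s i x‖ ^ 2
      * Real.exp (-((m : ℝ) * (B.w i x + 2 * Real.log ‖B.g j i x‖)))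
      = ‖s i x‖ ^ 2 * (Real.exp (2 * m * Real.log ‖B.g j i x‖)
      * Real.exp (-((m : ℝ) * (B.w i x + 2 * Real.log ‖B.g j i x‖)))) := by ring
  rw [h3, ← Real.exp_add]
  congr 2
  ring

theorem vt_len {B : Bundle A} {m : ℤ} {s : ι → X → ℂ} (hs : B.IsSection m s) (i : ι)
    {z : E n} (hz : z ∈ (A.c i).target) :
    vt A (len B m s) i z = uu (m : ℝ) (B.wt i) (st A s i) z := by
  unfold vt
  rw [len_chart hs ((A.c i).map_target hz)]
  rfl

theorem contDiffOn_uu {m : ℝ} {w : E n → ℝ} {f : E n → ℂ} {U : Set (E n)}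
    (hw : ContDiffOn ℝ ∞ w U) (hf : ContDiffOn ℝ ∞ f U) : ContDiffOn ℝ ∞ (uu m w f) U := by
  unfold uu
  exact (hf.norm_sq ℝ).mul (contDiffOn_const.mul hw).neg.exp

theorem Sm_len {B : Bundle A} {m : ℤ} {s : ι → X → ℂ} (hs : B.IsSection m s) :
    Sm A (len B m s) := by
  intro i
  exact (contDiffOn_uu (B.smooth i) (hs.smooth i)).congr fun z hz => vt_len hs i hz

theorem len_real (m : ℝ) (w : E n → ℝ) (z : E n) :
    cexp (-(m : ℂ) * cx w z) = ((Real.exp (-(m * w z)) : ℝ) : ℂ) := by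
  rw [Complex.ofReal_exp]
  congr 1
  unfold cx
  push_cast
  ring

variable [MeasurableSpace X] [BorelSpace X] [T2Space X] [CompactSpace X] {μ : Measure X}

/-- the line bundle is parabolic -/
def Para (B : Bundle A) (μ : Measure X) : Prop := ∃ q : X → ℝ, B.IsDensity q ∧ ∫ x, q x ∂μ = 0

theorem exists_density (B : Bundle A) : ∃ q : X → ℝ, B.IsDensity q :=
  ⟨fun x => (QQ (LM (B.wt (ix A x)) (A.c (ix A x) x)) (LM (B.wt (ix A x)) (A.c (ix A x) x))).re,
    fun i x hx => congrArg Complex.re (QQ_chart_self B (mem_ix A x) hx)⟩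

/-- isotropy of the curvature -/
theorem iso_all (hμ : A.IsVolume μ) (B : Bundle A) (hsp : B.Semipositive) (hq : Para B μ)
    (i : ι) : ∀ z ∈ (A.c i).target, Iso (LM (B.wt i) z) := by
  obtain ⟨q, hq1, hq2⟩ := hq
  have hpsd : ∀ i, ∀ z ∈ (A.c i).target, Psd (LM (B.wt i) z) := fun i z hz =>
    psd_of_levi (A.c i).open_target (B.smooth i) hz (hsp i z hz)
  have hqd : ∀ i, ∀ x ∈ (A.c i).source,
      q x = (QQ (LM (B.wt i) (A.c i x)) (LM (B.wt i) (A.c i x))).re := fun i x hx => hq1 i x hx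
  have hc : Continuous q := by
    refine continuous_of_charts A fun i =>
      ⟨fun z => (QQ (LM (B.wt i) z) (LM (B.wt i) z)).re, ?_, fun x hx => hqd i x hx⟩
    exact Complex.continuous_re.comp_continuousOn
      (contDiffOn_QQ (A.c i).open_target (B.smooth i) (B.smooth i)).continuousOn
  have hp : ∀ x, 0 ≤ q x := by
    intro x
    rw [hqd _ x (mem_ix A x)]
    have h1 := hpsd (ix A x) _ ((A.c (ix A x)).map_source (mem_ix A x))
    exact QQ_nonneg h1 h1
  intro z hz
  have h1 : q ((A.c i).symm z) = 0 := zero_of_integral hμ hc hp hq2 _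
  rw [hqd i _ ((A.c i).map_target hz), (A.c i).right_inv hz] at h1
  exact iso_of_QQ (hpsd i z hz) h1

/-- the derivatives of a section along the Hamiltonian directions of the curvature vanish -/
theorem main_vanish (hμ : A.IsVolume μ) (B : Bundle A) (hsp : B.Semipositive)
    (hq : Para B μ) (t : ℂ) (m : ℤ) {s : ι → X → ℂ} (hs : B.IsSection m s)
    (hol : ∀ i, ∀ z ∈ (A.c i).target, ∀ j, pb j (st A s i) z
      = -t * ∑ k : Ix n, sg k * LM (B.wt i) z k.swap j * DD (m : ℝ) (B.wt i) k (st A s i) z)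
    (i : ι) (z : E n) (hz : z ∈ (A.c i).target) (j : Ix n) :
    ∑ k : Ix n, sg k * LM (B.wt i) z k.swap j * DD (m : ℝ) (B.wt i) k (st A s i) z = 0 := by
  have hiso := iso_all hμ B hsp hq
  have hpsd : ∀ i, ∀ z ∈ (A.c i).target, Psd (LM (B.wt i) z) := fun i z hz =>
    psd_of_levi (A.c i).open_target (B.smooth i) hz (hsp i z hz)
  have hS := Sm_len hs
  -- the value of the operator on the length function
  have hval : ∀ i, ∀ z ∈ (A.c i).target, P B (len B m s) ((A.c i).symm z)
      = Real.exp (-((m : ℝ) * B.wt i z)) * (∑ k : Ix n, ∑ l : Ix n, LM (B.wt i) z k l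
        * (sg k.swap * DD (m : ℝ) (B.wt i) k.swap (st A s i) z)
        * conj (sg l.swap * DD (m : ℝ) (B.wt i) l.swap (st A s i) z)).re := by
    intro i z hz
    rw [P_eq B hS ((A.c i).map_target hz), (A.c i).right_inv hz]
    have h1 : LM (vt A (len B m s) i) z = LM (uu (m : ℝ) (B.wt i) (st A s i)) z := by
      funext k l
      refine LM_congr ?_ k l
      filter_upwards [(A.c i).open_target.mem_nhds hz] with y hy
      exact vt_len hs i hy
    rw [h1, key (w := B.wt i) (f := st A s i) (A.c i).open_target (B.smooth i) (hs.smooth i)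
      (hiso i) t (hol i) hz, len_real,
      Complex.re_ofReal_mul]
    congr 2
    have h2 : ∀ F : Ix n → Ix n → ℂ, ∑ k : Ix n, ∑ l : Ix n, F k.swap l.swap
        = ∑ k : Ix n, ∑ l : Ix n, F k l := by
      intro F
      rw [sum_swap (fun k => ∑ l : Ix n, F k l.swap)]
      exact Finset.sum_congr rfl fun k _ => sum_swap (F k)
    rw [← h2 (fun k l => LM (B.wt i) z k l
        * (sg k.swap * DD (m : ℝ) (B.wt i) k.swap (st A s i) z)
        * conj (sg l.swap * DD (m : ℝ) (B.wt i) l.swap (st A s i) z))]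
    simp only [Sum.swap_swap]
  have hval2 : ∀ i, ∀ z ∈ (A.c i).target, 0 ≤ (∑ k : Ix n, ∑ l : Ix n, LM (B.wt i) z k l
        * (sg k.swap * DD (m : ℝ) (B.wt i) k.swap (st A s i) z)
        * conj (sg l.swap * DD (m : ℝ) (B.wt i) l.swap (st A s i) z)).re := by
    intro i z hz
    have h1 := (hpsd i z hz).pos fun k => sg k.swap * DD (m : ℝ) (B.wt i) k.swap (st A s i) z
    have h2 : ∀ k l : Ix n, LM (B.wt i) z k l
        * (sg k.swap * DD (m : ℝ) (B.wt i) k.swap (st A s i) z)
        * conj (sg l.swap * DD (m : ℝ) (B.wt i) l.swap (st A s i) z)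
        = (sg k.swap * DD (m : ℝ) (B.wt i) k.swap (st A s i) z)
        * conj (sg l.swap * DD (m : ℝ) (B.wt i) l.swap (st A s i) z) * LM (B.wt i) z k l := by
      intro k l
      ring
    simp only [h2]
    exact h1
  have hpos : ∀ x, 0 ≤ P B (len B m s) x := by
    intro x
    have hx := mem_ix A x
    have h1 := hval (ix A x) _ ((A.c _).map_source hx)
    rw [(A.c _).left_inv hx] at h1
    rw [h1]
    exact mul_nonneg (Real.exp_pos _).le (hval2 _ _ ((A.c _).map_source hx))
  have hzero := zero_of_integral hμ (continuous_P B hS) hpos (int_P hμ B hS) ((A.c i).symm z)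
  rw [hval i z hz] at hzero
  have h3 := (mul_eq_zero.1 hzero).resolve_left (Real.exp_pos _).ne'
  have h4 := (hpsd i z hz).ker
    (fun k => sg k.swap * DD (m : ℝ) (B.wt i) k.swap (st A s i) z) h3 j
  rw [← h4, ← sum_swap]
  refine Finset.sum_congr rfl fun k _ => ?_
  rw [Sum.swap_swap]
  ring

/-- the covariant derivative on a vector -/
theorem cov_eq {w : E n → ℝ} {f : E n → ℂ} {z : E n} (m : ℤ) (a b : E n) :
    d10 f z a - m * d10 (fun y => (w y : ℂ)) z a * f z + d01 f z b
      = ∑ k, a k * DD (m : ℝ) w k f z + ∑ j, conj (b j) * pb j f z := by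
  have h1 : d10 (fun y => (w y : ℂ)) z a = ∑ k, a k * pk k (cx w) z := d10_eq_sum _ _ _
  rw [d10_eq_sum f z a, d01_eq_sum f z b, h1]
  congr 1
  unfold DD
  rw [Finset.mul_sum, Finset.sum_mul, ← Finset.sum_sub_distrib]
  refine Finset.sum_congr rfl fun k _ => ?_
  push_cast
  ring

theorem sum_XX {w : E n → ℝ} {z : E n} (t : ℂ) (b : E n) (D : Ix n → ℂ) :
    ∑ k, (t • XX w z b) k * D k
      = ∑ j, conj (b j) * (t * ∑ k : Ix n, sg k * LM w z k.swap j * D k) := by
  simp only [Pi.smul_apply, smul_eq_mul, XX, Finset.mul_sum, Finset.sum_mul]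
  rw [Finset.sum_comm]
  refine Finset.sum_congr rfl fun j _ => Finset.sum_congr rfl fun k _ => ?_
  ring

theorem hol_iff_pb {B : Bundle A} {m : ℤ} {s : ι → X → ℂ} (hs : B.IsSection m s) :
    B.IsHol s ↔ ∀ i, ∀ z ∈ (A.c i).target, ∀ j, pb j (st A s i) z = 0 := by
  constructor
  · intro h i z hz j
    exact d01_of_diff ((h i).differentiableAt ((A.c i).open_target.mem_nhds hz)) (e j)
  · intro h i z hz
    exact (diff_of_pb (diffAt_of (A.c i).open_target (hs.smooth i) hz)
      (h i z hz)).differentiableWithinAt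

/-- The main theorem. -/
theorem main_iff (hμ : A.IsVolume μ) (B : Bundle A) (hsp : B.Semipositive)
    (hq : Para B μ) (t : ℂ) (m : ℤ) {s : ι → X → ℂ} (hs : B.IsSection m s) :
    B.IsHolT t m s ↔ B.IsHol s := by
  have hiso := iso_all hμ B hsp hq
  have hwz : ∀ i, ∀ z ∈ (A.c i).target, ContDiffAt ℝ ∞ (B.wt i) z := fun i z hz =>
    (B.smooth i).contDiffAt ((A.c i).open_target.mem_nhds hz)
  rw [hol_iff_pb hs]
  constructor
  · intro h
    have hol : ∀ i, ∀ z ∈ (A.c i).target, ∀ j, pb j (st A s i) z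
      = -t * ∑ k : Ix n, sg k * LM (B.wt i) z k.swap j
        * DD (m : ℝ) (B.wt i) k (st A s i) z := by
      intro i z hz j
      have h1 := h i z hz _ _ (zo_of_eq (hwz i z hz) (hiso i z hz) t (e j))
      rw [cov_eq, sum_XX] at h1
      have h2 : ∀ G : Ix n → ℂ, ∑ l, conj ((e j : E n) l) * G l = G j := by
        intro G
        rw [Finset.sum_eq_single j]
        · simp [e]
        · intro l _ hl
          simp [e, hl]
        · simp
      rw [h2, h2] at h1
      change t * ∑ k : Ix n, sg k * LM (B.wt i) z k.swap j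
        * DD (m : ℝ) (B.wt i) k (st A s i) z + pb j (st A s i) z = 0 at h1
      linear_combination h1
    intro i z hz j
    rw [hol i z hz j, main_vanish hμ B hsp hq t m hs hol i z hz j, mul_zero]
  · intro h
    have hv := main_vanish hμ B hsp hq 0 m hs (fun i z hz j => by rw [h i z hz j]; ring)
    intro i z hz a b hab
    rw [eq_of_zo (hwz i z hz) t hab, cov_eq, sum_XX]
    have h1 : ∀ j, pb j (s i ∘ (A.c i).symm) z = 0 := h i z hz
    have h2 : ∀ j, ∑ k : Ix n, sg k * LM (B.wt i) z k.swap j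
      * DD (m : ℝ) (B.wt i) k (s i ∘ (A.c i).symm) z = 0 := fun j => hv i z hz j
    simp [h1, h2]

end global

end Pool.Agent.DTW
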