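import Pool.Agent.DTW.Chg

/-!
Local Stokes theorem.
-/

open scoped ContDiff ComplexConjugate Topology
open Complex MeasureTheory

namespace Pool.Agent.DTW

variable {n : ℕ}

theorem integral_fderiv_zero {G : E n → ℂ} (hG : ContDiff ℝ ∞ G) (hc : HasCompactSupport G)
    (v : E n) : ∫ z, fderiv ℝ G z v = 0 := by
  have h1 : Integrable (fun z => fderiv ℝ G z v) := by
    refine Continuous.integrable_of_hasCompactSupport ?_ ?_
    · exact (hG.continuous_fderiv (by simp)).clm_apply continuous_const
    · exact hc.fderiv_apply ℝ v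
  have h2 : Integrable G := hG.continuous.integrable_of_hasCompactSupport hc
  have h := integral_mul_fderiv_eq_neg_fderiv_mul_of_integrable (μ := (volume : Measure (E n)))
    (f := fun _ : E n => (1 : ℂ)) (g := G) (v := v) (by simp) (by simpa using h1)
    (by simpa using h2) (fun x _ => differentiableAt_const _)
    (fun x _ => hG.differentiable (by simp) x)
  simpa using h

theorem integral_pk_zero {G : E n → ℂ} (hG : ContDiff ℝ ∞ G) (hc : HasCompactSupport G)
    (k : Ix n) : ∫ z, pk k G z = 0 := by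
  have h1 : ∀ v : E n, Integrable (fun z => fderiv ℝ G z v) := by
    intro v
    refine Continuous.integrable_of_hasCompactSupport ?_ ?_
    · exact (hG.continuous_fderiv (by simp)).clm_apply continuous_const
    · exact hc.fderiv_apply ℝ v
  have h2 : (fun z => pk k G z) = fun z =>
      (fderiv ℝ G z (e k) - I * fderiv ℝ G z (I • e k)) * (2 : ℂ)⁻¹ := by
    funext z
    unfold pk d10
    rw [div_eq_mul_inv]
  rw [h2, integral_mul_const, integral_sub (h1 _) ((h1 _).const_mul _), integral_const_mul,
    integral_fderiv_zero hG hc, integral_fderiv_zero hG hc]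
  simp

theorem contDiff_of_zero {G : E n → ℂ} {U K : Set (E n)} (hU : IsOpen U) (hK : IsCompact K)
    (hKU : K ⊆ U) (hG : ContDiffOn ℝ ∞ G U) (h0 : ∀ z ∉ K, G z = 0) : ContDiff ℝ ∞ G := by
  rw [contDiff_iff_contDiffAt]
  intro z
  by_cases hz : z ∈ U
  · exact hG.contDiffAt (hU.mem_nhds hz)
  · have h1 : G =ᶠ[𝓝 z] fun _ => 0 := by
      filter_upwards [hK.isClosed.isOpen_compl.mem_nhds (fun h => hz (hKU h))] with y hy
      exact h0 y hy
    exact contDiffAt_const.congr_of_eventuallyEq h1

theorem hasCompact_of_zero {G : E n → ℂ} {K : Set (E n)} (hK : IsCompact K)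
    (h0 : ∀ z ∉ K, G z = 0) : HasCompactSupport G :=
  HasCompactSupport.intro hK h0

theorem pb_zero_off {v : E n → ℝ} {K : Set (E n)} (hK : IsCompact K) (h0 : ∀ z ∉ K, v z = 0)
    (l : Ix n) : ∀ z ∉ K, pb l (cx v) z = 0 := by
  intro z hz
  have h1 : cx v =ᶠ[𝓝 z] fun _ => 0 := by
    filter_upwards [hK.isClosed.isOpen_compl.mem_nhds hz] with y hy
    simp [cx, h0 y hy]
  rw [pb_congr h1]
  exact d01_const 0

theorem pk_zero_off {G : E n → ℂ} {K : Set (E n)} (hK : IsCompact K) (h0 : ∀ z ∉ K, G z = 0)
    (l : Ix n) : ∀ z ∉ K, pk l G z = 0 := by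
  intro z hz
  have h1 : G =ᶠ[𝓝 z] fun _ => 0 := by
    filter_upwards [hK.isClosed.isOpen_compl.mem_nhds hz] with y hy
    exact h0 y hy
  rw [pk_congr h1]
  exact d10_const 0

/-- the contracted closedness relation -/
theorem div_free {U : Set (E n)} (hU : IsOpen U) {w : E n → ℝ} (hw : ContDiffOn ℝ ∞ w U)
    {z : E n} (hz : z ∈ U) (l : Ix n) :
    ∑ k : Ix n, sg k * pk k (fun y => LM w y k.swap l) z = 0 := by
  have hW := contDiffOn_cx hw
  have hsym : ∀ k p : Ix n, pk k (fun y => LM w y p l) z = pk p (fun y => LM w y k l) z := by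
    intro k p
    exact pk_pk_comm ((contDiffOn_pb hU hW l).contDiffAt (hU.mem_nhds hz)) k p
  have h1 : ∑ k : Ix n, sg k * pk k (fun y => LM w y k.swap l) z
      = -∑ k : Ix n, sg k * pk k (fun y => LM w y k.swap l) z := by
    conv_lhs => rw [← sum_swap]
    rw [← Finset.sum_neg_distrib]
    refine Finset.sum_congr rfl fun k _ => ?_
    rw [Sum.swap_swap, sg_swap, hsym]
    ring
  linear_combination h1 / 2

theorem stokes {U K : Set (E n)} (hU : IsOpen U) (hK : IsCompact K) (hKU : K ⊆ U)
    {w : E n → ℝ} (hw : ContDiffOn ℝ ∞ w U) {v : E n → ℝ} (hv : ContDiffOn ℝ ∞ v U)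
    (h0 : ∀ z ∉ K, v z = 0) :
    ∫ z, QQ (LM w z) (LM v z) = 0 := by
  have hW := contDiffOn_cx hw
  have hV := contDiffOn_cx hv
  set G : Ix n → E n → ℂ := fun k z =>
    ∑ l : Ix n, sg l * LM w z k.swap l.swap * pb l (cx v) z with hG
  have hFs : ∀ k l, ContDiffOn ℝ ∞ (fun z => LM w z k l) U := fun k l =>
    contDiffOn_pk hU (contDiffOn_pb hU hW l) k
  have hPs : ∀ l, ContDiffOn ℝ ∞ (pb l (cx v)) U := fun l => contDiffOn_pb hU hV l
  have hGs : ∀ k, ContDiffOn ℝ ∞ (G k) U := by
    intro k
    exact ContDiffOn.sum fun l _ => (contDiffOn_const.mul (hFs _ _)).mul (hPs l)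
  have hG0 : ∀ k, ∀ z ∉ K, G k z = 0 := by
    intro k z hz
    simp only [hG]
    refine Finset.sum_eq_zero fun l _ => ?_
    rw [pb_zero_off hK h0 l z hz, mul_zero]
  have hGc : ∀ k, ContDiff ℝ ∞ (G k) := fun k => contDiff_of_zero hU hK hKU (hGs k) (hG0 k)
  have hGh : ∀ k, HasCompactSupport (G k) := fun k => hasCompact_of_zero hK (hG0 k)
  have hint : ∀ k, Integrable (fun z => pk k (G k) z) := by
    intro k
    refine Continuous.integrable_of_hasCompactSupport ?_ ?_
    · have h1 : ContDiffOn ℝ ∞ (pk k (G k)) Set.univ :=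
        contDiffOn_pk isOpen_univ (hGc k).contDiffOn k
      exact (contDiffOn_univ.1 h1).continuous
    · exact hasCompact_of_zero hK (pk_zero_off hK (hG0 k) k)
  have hmain : ∀ z, QQ (LM w z) (LM v z) = ∑ k : Ix n, sg k * pk k (G k) z := by
    intro z
    by_cases hz : z ∈ U
    · have dF : ∀ k l, DifferentiableAt ℝ (fun y => LM w y k l) z := fun k l =>
        diffAt_of hU (hFs k l) hz
      have dP : ∀ l, DifferentiableAt ℝ (pb l (cx v)) z := fun l => diffAt_of hU (hPs l) hz
      have h1 : ∀ k, pk k (G k) z = ∑ l : Ix n, (sg l * pk k (fun y => LM w y k.swap l.swap) z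
          * pb l (cx v) z + sg l * LM w z k.swap l.swap * LM v z k l) := by
        intro k
        have d1 : ∀ l : Ix n, DifferentiableAt ℝ
            (fun y => sg l * LM w y k.swap l.swap * pb l (cx v) y) z := fun l =>
          ((dF _ _).const_mul _).mul (dP l)
        have h2 := d10_sum (z := z) (a := e k) Finset.univ
          (fun (l : Ix n) y => sg l * LM w y k.swap l.swap * pb l (cx v) y) (fun l _ => d1 l)
        have h3 : pk k (G k) z = ∑ l : Ix n,
            d10 (fun y => sg l * LM w y k.swap l.swap * pb l (cx v) y) z (e k) := h2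
        rw [h3]
        refine Finset.sum_congr rfl fun l _ => ?_
        rw [d10_mul ((dF _ _).const_mul _) (dP l), d10_const_mul (dF _ _)]
        rfl
      simp only [h1]
      have h4 : ∑ k : Ix n, sg k * ∑ l : Ix n, (sg l * pk k (fun y => LM w y k.swap l.swap) z
          * pb l (cx v) z + sg l * LM w z k.swap l.swap * LM v z k l)
          = ∑ l : Ix n, (sg l * pb l (cx v) z)
              * ∑ k : Ix n, sg k * pk k (fun y => LM w y k.swap l.swap) z
            + ∑ k : Ix n, ∑ l : Ix n, sg k * sg l * LM w z k.swap l.swap * LM v z k l := by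
        simp only [Finset.mul_sum]
        rw [Finset.sum_comm (f := fun (l : Ix n) (k : Ix n) => sg l * pb l (cx v) z *
          (sg k * pk k (fun y => LM w y k.swap l.swap) z)), ← Finset.sum_add_distrib]
        refine Finset.sum_congr rfl fun k _ => ?_
        rw [← Finset.sum_add_distrib]
        refine Finset.sum_congr rfl fun l _ => ?_
        ring
      rw [h4]
      unfold QQ
      simp [div_free hU hw hz]
    · have hzK : z ∉ K := fun h => hz (hKU h)
      have h1 : ∀ k l, LM v z k l = 0 := by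
        intro k l
        rw [LM_eq]
        exact pk_zero_off hK (pb_zero_off hK h0 l) k z hzK
      unfold QQ
      simp [h1, fun k => pk_zero_off hK (hG0 k) k z hzK]
  simp only [hmain]
  rw [integral_finset_sum _ fun k _ => (hint k).const_mul _]
  refine Finset.sum_eq_zero fun k _ => ?_
  rw [integral_const_mul, integral_pk_zero (hGc k) (hGh k), mul_zero]

end Pool.Agent.DTW
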