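import Pool.Agent.DTW.Int

/-!
Existence of the volume measure.
-/

open scoped ContDiff ComplexConjugate Topology
open Complex MeasureTheory

namespace Pool.Agent.DTW

variable {n : ℕ} {X : Type*} [TopologicalSpace X] {ι : Type*}

theorem det_symp (T : E n →L[ℂ] E n) (hT : ∀ a b, S (T a) (T b) = S a b) :
    (T.restrictScalars ℝ).det = 1 := by
  have h1 : ((T : E n →ₗ[ℂ] E n)).det = 1 := by
    have h2 : LinearMap.toMatrix' (T : E n →ₗ[ℂ] E n) ∈ Matrix.symplecticGroup (Fin n) ℂ := by
      have h3 : ∀ a : E n, (fun p => ∑ k, (fun p k => T (Pi.single k 1) p) p k * a k)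
          = T a := by
        intro a
        have h4 := LinearMap.toMatrix'_mulVec (T : E n →ₗ[ℂ] E n) a
        exact h4
      exact symp_matrix (T := fun p k => T (Pi.single k 1) p) fun a b => by
        rw [h3, h3, hT]
    rw [← LinearMap.det_toMatrix', SymplecticGroup.det_eq_one h2]
  have h5 : (T.restrictScalars ℝ).det = Algebra.norm ℝ (((T : E n →ₗ[ℂ] E n)).det) :=
    LinearMap.det_restrictScalars
  rw [h5, h1, map_one]

theorem measurable_inter [MeasurableSpace X] [BorelSpace X] (A : Atlas n X ι) (i : ι)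
    {T : Set X} (hT : MeasurableSet T) : MeasurableSet ((A.c i).target ∩ (A.c i).symm ⁻¹' T) := by
  have h1 : Measurable ((A.c i).target.domRestrict (A.c i).symm) :=
    (continuousOn_iff_continuous_domRestrict.1 (A.c i).continuousOn_symm).measurable
  have h2 := (A.c i).open_target.measurableSet.subtype_image (h1 hT)
  have h3 : Subtype.val '' ((A.c i).target.domRestrict (A.c i).symm ⁻¹' T)
      = (A.c i).target ∩ (A.c i).symm ⁻¹' T := by
    ext u
    simp [and_comm]
  rw [h3] at h2
  exact h2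

theorem measurable_image [MeasurableSpace X] [BorelSpace X] (A : Atlas n X ι) (i : ι)
    {s : Set (E n)} (hs : MeasurableSet s) (hst : s ⊆ (A.c i).target) :
    MeasurableSet ((A.c i).symm '' s) := by
  have h1 : Measurable ((A.c i).source.domRestrict (A.c i)) :=
    (continuousOn_iff_continuous_domRestrict.1 (A.c i).continuousOn).measurable
  have h2 := (A.c i).open_source.measurableSet.subtype_image (h1 hs)
  have h3 : Subtype.val '' ((A.c i).source.domRestrict (A.c i) ⁻¹' s) = (A.c i).symm '' s := by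
    ext x
    constructor
    · rintro ⟨⟨y, hy⟩, hys, rfl⟩
      exact ⟨A.c i y, hys, (A.c i).left_inv hy⟩
    · rintro ⟨u, hu, rfl⟩
      refine ⟨⟨(A.c i).symm u, (A.c i).map_target (hst hu)⟩, ?_, rfl⟩
      simpa [(A.c i).right_inv (hst hu)] using hu
  rw [h3] at h2
  exact h2

theorem volume_ph (A : Atlas n X ι) (i j : ι) {s : Set (E n)} (hs : MeasurableSet s)
    (hsU : s ⊆ Uo A i j) : volume (ph A i j '' s) = volume s := by
  have hd : ∀ z ∈ s, HasFDerivWithinAt (ph A i j)
      ((fderiv ℂ (ph A i j) z).restrictScalars ℝ) s z := by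
    intro z hz
    have h1 : DifferentiableAt ℂ (ph A i j) z :=
      ((contDiffOn_ph A i j).contDiffAt ((isOpen_Uo A i j).mem_nhds (hsU hz))).differentiableAt
        (by simp)
    exact (h1.hasFDerivAt.restrictScalars ℝ).hasFDerivWithinAt
  have hinj : Set.InjOn (ph A i j) s := by
    intro z hz z' hz' h
    have h1 := symm_ph (hsU hz)
    have h2 := symm_ph (hsU hz')
    rw [h] at h1
    have h3 : (A.c i).symm z = (A.c i).symm z' := by rw [← h1, ← h2]
    exact (A.c i).symm.injOn (hsU hz).1 (hsU hz').1 h3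
  rw [← lintegral_abs_det_fderiv_eq_addHaar_image volume hs hd hinj]
  have h4 : ∀ z ∈ s, ENNReal.ofReal |((fderiv ℂ (ph A i j) z).restrictScalars ℝ).det| = 1 := by
    intro z hz
    have h5 := det_symp (fderiv ℂ (ph A i j) z) (A.symp i j z (hsU hz).1 (hsU hz).2)
    rw [h5]
    simp
  rw [setLIntegral_congr_fun hs h4]
  simp

theorem exists_volume [MeasurableSpace X] [BorelSpace X] [CompactSpace X] (A : Atlas n X ι) :
    ∃ μ : Measure X, A.IsVolume μ := by
  classical
  obtain ⟨t, ht⟩ := CompactSpace.elim_nhds_subcover (fun x => (A.c (ix A x)).source)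
    (fun x => (A.c (ix A x)).open_source.mem_nhds (mem_ix A x))
  obtain ⟨N, ⟨en⟩⟩ : ∃ N, Nonempty (Fin N ≃ t) := ⟨t.card, ⟨t.equivFin.symm⟩⟩
  set j : Fin N → ι := fun a => ix A (en a : X) with hj
  have hcov : ∀ x : X, ∃ a, x ∈ (A.c (j a)).source := by
    intro x
    have h1 : x ∈ ⋃ y ∈ t, (A.c (ix A y)).source := by rw [ht]; trivial
    simp only [Set.mem_iUnion] at h1
    obtain ⟨y, hy, hx⟩ := h1
    refine ⟨en.symm ⟨y, hy⟩, ?_⟩
    simpa [hj] using hx
  set D : Fin N → Set X := fun a => (A.c (j a)).source ∩ ⋂ b ∈ Finset.univ.filter (· < a),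
    ((A.c (j b)).source)ᶜ with hD
  have hDm : ∀ a, MeasurableSet (D a) := by
    intro a
    refine (A.c (j a)).open_source.measurableSet.inter ?_
    exact Finset.measurableSet_biInter _ fun b _ => (A.c (j b)).open_source.measurableSet.compl
  have hDd : Pairwise (fun a b => Disjoint (D a) (D b)) := by
    have h1 : ∀ a b, a < b → Disjoint (D a) (D b) := by
      intro a b hab
      rw [Set.disjoint_left]
      intro x hx hx'
      have h2 := hx'.2
      simp only [Set.mem_iInter, Finset.mem_filter, Finset.mem_univ, true_and] at h2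
      exact h2 a hab hx.1
    intro a b hab
    rcases lt_or_gt_of_ne hab with h | h
    · exact h1 a b h
    · exact (h1 b a h).symm
  have hDc : ∀ x, ∃ a, x ∈ D a := by
    intro x
    have h1 : (Finset.univ.filter fun a => x ∈ (A.c (j a)).source).Nonempty := by
      obtain ⟨a, ha⟩ := hcov x
      exact ⟨a, by simp [ha]⟩
    set a := (Finset.univ.filter fun a => x ∈ (A.c (j a)).source).min' h1 with ha
    have h2 : a ∈ Finset.univ.filter fun a => x ∈ (A.c (j a)).source := Finset.min'_mem _ h1
    refine ⟨a, (Finset.mem_filter.1 h2).2, ?_⟩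
    simp only [Set.mem_iInter, Finset.mem_filter, Finset.mem_univ, true_and]
    intro b hb hxb
    have h3 : a ≤ b := Finset.min'_le _ _ (by simp [hxb])
    exact absurd h3 (not_le.2 hb)
  set W : Fin N → Set (E n) := fun a => (A.c (j a)).target ∩ (A.c (j a)).symm ⁻¹' D a with hW
  have hWm : ∀ a, MeasurableSet (W a) := fun a => measurable_inter A (j a) (hDm a)
  set μ : Measure X := ∑ a : Fin N,
    Measure.map (A.c (j a)).symm ((volume : Measure (E n)).restrict (W a)) with hμ
  refine ⟨μ, fun i s hs hsm => ?_⟩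
  set T : Set X := (A.c i).symm '' s with hT
  have hTm : MeasurableSet T := measurable_image A i hsm hs
  have h1 : ∀ a, Measure.map (A.c (j a)).symm ((volume : Measure (E n)).restrict (W a)) T
      = volume (s ∩ (A.c i).symm ⁻¹' D a) := by
    intro a
    have hae : AEMeasurable (A.c (j a)).symm ((volume : Measure (E n)).restrict (W a)) :=
      ((A.c (j a)).continuousOn_symm.mono Set.inter_subset_left).aemeasurable (hWm a)
    rw [Measure.map_apply_of_aemeasurable hae hTm, Measure.restrict_apply' (hWm a)]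
    have hsub : s ∩ (A.c i).symm ⁻¹' D a ⊆ Uo A i (j a) := by
      rintro z ⟨hz1, hz2⟩
      exact ⟨hs hz1, hz2.1⟩
    have hms : MeasurableSet (s ∩ (A.c i).symm ⁻¹' D a) := by
      have h2 : s ∩ (A.c i).symm ⁻¹' D a = s ∩ ((A.c i).target ∩ (A.c i).symm ⁻¹' D a) := by
        ext z
        constructor
        · rintro ⟨hz1, hz2⟩
          exact ⟨hz1, hs hz1, hz2⟩
        · rintro ⟨hz1, _, hz2⟩
          exact ⟨hz1, hz2⟩
      rw [h2]
      exact hsm.inter (measurable_inter A i (hDm a))
    rw [← volume_ph A i (j a) hms hsub]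
    congr 1
    ext y
    constructor
    · rintro ⟨hyT, hyW⟩
      obtain ⟨z, hz, hzy⟩ := hyT
      refine ⟨z, ⟨hz, ?_⟩, ?_⟩
      · change (A.c i).symm z ∈ D a
        rw [hzy]
        exact hyW.2
      · unfold ph
        simp only [Function.comp]
        rw [hzy, (A.c (j a)).right_inv hyW.1]
    · rintro ⟨z, ⟨hz1, hz2⟩, rfl⟩
      have hzU := hsub ⟨hz1, hz2⟩
      refine ⟨?_, ph_mem hzU, ?_⟩
      · change (A.c (j a)).symm (ph A i (j a) z) ∈ T
        rw [symm_ph hzU]
        exact ⟨z, hz1, rfl⟩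
      · change (A.c (j a)).symm (ph A i (j a) z) ∈ D a
        rw [symm_ph hzU]
        exact hz2
  have h2 : μ T = ∑ a, volume (s ∩ (A.c i).symm ⁻¹' D a) := by
    rw [hμ, Measure.finsetSum_apply]
    exact Finset.sum_congr rfl fun a _ => h1 a
  rw [h2]
  have hms : ∀ a, MeasurableSet (s ∩ (A.c i).symm ⁻¹' D a) := by
    intro a
    have h3 : s ∩ (A.c i).symm ⁻¹' D a = s ∩ ((A.c i).target ∩ (A.c i).symm ⁻¹' D a) := by
      ext z
      constructor
      · rintro ⟨hz1, hz2⟩
        exact ⟨hz1, hs hz1, hz2⟩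
      · rintro ⟨hz1, _, hz2⟩
        exact ⟨hz1, hz2⟩
    rw [h3]
    exact hsm.inter (measurable_inter A i (hDm a))
  have h3 : s = ⋃ a, s ∩ (A.c i).symm ⁻¹' D a := by
    ext z
    simp only [Set.mem_iUnion]
    constructor
    · intro hz
      obtain ⟨a, ha⟩ := hDc ((A.c i).symm z)
      exact ⟨a, hz, ha⟩
    · rintro ⟨a, hz, _⟩
      exact hz
  conv_rhs => rw [h3]
  rw [measure_iUnion _ hms, tsum_fintype]
  intro a b hab
  refine Set.disjoint_left.2 ?_
  rintro z ⟨_, hz1⟩ ⟨_, hz2⟩
  exact Set.disjoint_left.1 (hDd hab) hz1 hz2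

end Pool.Agent.DTW
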